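import Pool.Agent.Lib_helper64.TD.Defs
import Pool.Agent.Lib_helper74.CKF.HYB
import Pool.Agent.Lib_helper74.CKF.HC
import Pool.Agent.Lib_helper74.CKF.MACH
import Pool.Agent.Lib_helper74.CKF.CARD
import Pool.Agent.Lib_helper74.CKF.ADDR
/-!
# Block CDA: cardinalities
-/

set_option autoImplicit false

namespace Pool.Agent.TD

open Pool.Agent.CK

/-- CDA -/
theorem card_X (n : ℕ) : Fintype.card (X n) = 2 ^ n := by
  have h : Fintype.card (List.Vector Bool n) = Fintype.card Bool ^ n := card_vector n
  rw [Fintype.card_bool] at h
  rw [← h]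
  exact Fintype.card_congr (Equiv.refl _)

/-- CDA -/
theorem card_str (m : ℕ) : CardBd {w : Str | w.length ≤ m} (m + 1) := by
  have hfin : ({w : Str | w.length ≤ m}).Finite := List.finite_length_le Bool m
  refine ⟨hfin, ?_⟩
  have key : ∀ m : ℕ, ({w : Str | w.length ≤ m}).ncard + 1 ≤ 2 ^ (m + 1) := by
    intro m
    induction m with
    | zero =>
      have e : {w : Str | w.length ≤ 0} = {[]} := by
        ext l
        simp only [Set.mem_setOf_eq, Set.mem_singleton_iff]
        constructor
        · intro hl
          exact List.length_eq_zero_iff.1 (Nat.le_zero.1 hl)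
        · rintro rfl
          simp
      rw [e, Set.ncard_singleton]
      norm_num
    | succ m ih =>
      have hsub : {w : Str | w.length ≤ m + 1} ⊆
          {w : Str | w.length ≤ m} ∪ {w : Str | w.length = m + 1} := by
        intro w hw
        rcases Nat.lt_or_ge w.length (m + 1) with h | h
        · left
          show w.length ≤ m
          omega
        · right
          show w.length = m + 1
          have : w.length ≤ m + 1 := hw
          omega
      have hf1 : ({w : Str | w.length ≤ m}).Finite := List.finite_length_le Bool m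
      have hf2 : ({w : Str | w.length = m + 1}).Finite := List.finite_length_eq Bool (m + 1)
      have h1 := Set.ncard_le_ncard hsub (hf1.union hf2)
      have h2 := Set.ncard_union_le {w : Str | w.length ≤ m} {w : Str | w.length = m + 1}
      have h3 : ({w : Str | w.length = m + 1}).ncard = 2 ^ (m + 1) := by
        have := card_X (m + 1)
        rw [← this, ← Nat.card_eq_fintype_card]
        rfl
      have h4 : (2 : ℕ) ^ (m + 1 + 1) = 2 ^ (m + 1) + 2 ^ (m + 1) := by ring
      omega
  have := key m
  omega

/-- CDA -/
theorem card_Z (k : ℕ) : Fintype.card (Z k) ≤ 2 ^ sM k := by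
  rcases Nat.eq_zero_or_pos (sM k) with h0 | h0
  · have : 0 < sM k := by unfold sM; positivity
    omega
  have h := card_str (sM k - 1)
  have hsub : ZSet k ⊆ {w : Str | w.length ≤ sM k - 1} := by
    intro z hz
    have h2 := hz.2
    show z.length ≤ sM k - 1
    omega
  have h1 := card_mono h hsub le_rfl
  have h2 : (ZSet k).ncard ≤ 2 ^ (sM k - 1 + 1) := h1.2
  rw [Nat.sub_add_cancel h0] at h2
  calc Fintype.card (Z k) = Nat.card (Z k) := (Nat.card_eq_fintype_card).symm
    _ = (ZSet k).ncard := rfl
    _ ≤ _ := h2

/-- CDA -/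
theorem card_Q (k : ℕ) : Fintype.card (Q k) ≤ 2 ^ (qb k + 1) := by
  have h := card_str (qb k)
  calc Fintype.card (Q k) = Nat.card (Q k) := (Nat.card_eq_fintype_card).symm
    _ = ({w : Str | w.length ≤ qb k}).ncard := rfl
    _ ≤ _ := h.2

/-- CDA: a union of few sets -/
theorem card_biUnion {α : Type} (I : ℕ) (F : ℕ → Set α) (m : ℕ) (h : ∀ n < I, CardBd (F n) m) :
    CardBd {a | ∃ n < I, a ∈ F n} (m + I) := by
  induction I with
  | zero =>
    have e : {a | ∃ n < 0, a ∈ F n} = (∅ : Set α) := by
      ext a
      simp
    rw [e]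
    refine ⟨Set.finite_empty, ?_⟩
    rw [Set.ncard_empty]
    exact Nat.zero_le _
  | succ I ih =>
    have h1 := ih fun n hn => h n (by omega)
    have h2 : CardBd (F I) (m + I) := card_mono (h I (by omega)) (le_refl _) (by omega)
    refine card_mono (card_union h1 h2) ?_ (by omega)
    rintro a ⟨n, hn, ha⟩
    rcases Nat.lt_or_ge n I with hlt | hge
    · exact Or.inl ⟨n, hlt, ha⟩
    · have : n = I := by omega
      subst this
      exact Or.inr ha

end Pool.Agent.TD
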