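import Pool.Agent.Lib_helper64.TD.Defs
import Pool.Agent.Lib_helper74.CKF.HYB
import Pool.Agent.Lib_helper74.CKF.HC
import Pool.Agent.Lib_helper74.CKF.MACH
import Pool.Agent.Lib_helper74.CKF.CARD
import Pool.Agent.Lib_helper74.CKF.ADDR
set_option autoImplicit false

namespace Pool.Agent.TD

open Pool.Agent.CK

/-- STA -/
theorem stage_eq (k : ℕ) : k = su k * su k + sj k ∧ sj k ≤ 2 * su k := by
  have h1 := Nat.sqrt_le k
  have h2 := Nat.sqrt_le_add k
  unfold su sj
  omega

/-- STA -/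
theorem stage_of (t j : ℕ) : su ((t + 2 * j) ^ 2 + j) = t + 2 * j ∧
    sj ((t + 2 * j) ^ 2 + j) = j ∧ st ((t + 2 * j) ^ 2 + j) = t := by
  have h : Nat.sqrt ((t + 2 * j) ^ 2 + j) = t + 2 * j := Nat.sqrt_add_eq' _ (by omega)
  have hj : sj ((t + 2 * j) ^ 2 + j) = j := by
    unfold sj
    rw [h, pow_two]
    omega
  refine ⟨h, hj, ?_⟩
  unfold st
  rw [hj, h]
  omega

/-- STA -/
theorem sD_mono {k k' : ℕ} (h : k ≤ k') : sD k ≤ sD k' := by
  unfold sD su
  exact Nat.pow_le_pow_right (by norm_num)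
    (Nat.pow_le_pow_right (by norm_num) (Nat.sqrt_le_sqrt h))

/-- STA: the stage `k` is relevant for the level `n` if `sD k ≤ dd n` -/
theorem rel_iff (k n : ℕ) : k < KK n ↔ sD k ≤ dd n := by
  have hL : Lam n ≠ 0 := Nat.succ_ne_zero _
  unfold KK sD dd su
  rw [Nat.pow_le_pow_iff_right (by norm_num : 1 < 2), ← Nat.sqrt_lt', Nat.lt_succ_iff]
  exact Nat.le_log_iff_pow_le (by norm_num) hL

theorem sta_pow (k : ℕ) (h2 : 2 * sj k ≤ su k) : (sm k) ^ ((se k) ^ 2) = sD k := by
  unfold sm se sD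
  rw [← pow_mul, ← pow_mul, ← pow_add]
  congr 2
  unfold st su
  unfold su at h2
  omega

theorem sta_pos {k : ℕ} {w : Str} {p : Z k × (ℕ × Bool)} (h : pos k w = some p) :
    w = taddr (se k) p.1.1 p.2.1 p.2.2 := by
  unfold pos at h
  split at h
  · exact absurd h (by simp)
  · rename_i q hq
    split_ifs at h with h'
    have h3 := tdec_eq hq
    rw [Option.some.injEq] at h
    subst h
    rw [h3, h'.1]

theorem sta_pos_taddr (k : ℕ) (z : Str) (b : ℕ) (c : Bool) (hz : z ∈ ZSet k) :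
    pos k (taddr (se k) z b c) = some (⟨z, hz⟩, (b, c)) := by
  unfold pos
  rw [tdec_taddr]
  simp only
  rw [dif_pos ⟨rfl, hz⟩]

/-- STA -/
theorem pos_len {k : ℕ} {w : Str} {p : Z k × (ℕ × Bool)} (h2 : 2 * sj k ≤ su k)
    (h : pos k w = some p) : sD k ≤ w.length := by
  have hw := sta_pos h
  have hz : sm k ≤ p.1.1.length + 2 := p.1.2.1
  have h3 : sD k ≤ alen (se k) p.1.1 := by
    rw [← sta_pow k h2]
    unfold alen
    exact Nat.pow_le_pow_left hz _
  have h4 : alen (se k) p.1.1 ≤ w.length := by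
    have := key_le w
    rw [hw, key_taddr, ← hw] at this
    exact this
  exact h3.trans h4

/-- STA -/
theorem orc_upd (S : Sec) (Tab : ℕ → Str → Str) (k : ℕ) (T : Z k → Q k) (h5 : 5 ≤ sj k) :
    orc S (upd Tab k T) = patch (pos k) (rd k) (orc S Tab) T := by
  have he : 32 ≤ se k := by
    unfold se
    exact (by norm_num : 32 = 2 ^ 5).le.trans (Nat.pow_le_pow_right (by norm_num) h5)
  funext w
  unfold patch orc pos
  rcases hw : tdec w with _ | p
  · rfl
  · simp only
    by_cases hp : p.1.1 = se k ∧ p.1.2 ∈ ZSet k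
    · rw [dif_pos hp]
      simp only [rd]
      unfold val upd
      rw [if_neg (by omega), if_neg (by omega), if_neg (by omega), dif_pos hp]
    · rw [dif_neg hp]
      simp only
      unfold val upd
      rw [dif_neg hp]

/-- STA -/
theorem orc_low (S : Sec) (Tab : ℕ → Str → Str) (k : ℕ) (T : Z k → Q k) (h5 : 5 ≤ sj k)
    (h2 : 2 * sj k ≤ su k) (w : Str) (hw : w.length < sD k) :
    orc S (upd Tab k T) w = orc S Tab w := by
  rw [orc_upd S Tab k T h5]
  unfold patch
  rcases hp : pos k w with _ | p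
  · rfl
  · exact absurd (pos_len h2 hp) (by omega)

/-- STA -/
theorem upd_self (Tab : ℕ → Str → Str) (k : ℕ) (T : Z k → Q k) (z : Z k) :
    upd Tab k T (se k) z.1 = (T z).1 := by
  unfold upd
  rw [dif_pos ⟨rfl, z.2⟩]

/-- STA -/
theorem upd_length (Tab : ℕ → Str → Str) (k : ℕ) (T : Z k → Q k) (e : ℕ) (z : Str) :
    (upd Tab k T e z = Tab e z) ∨ (e = se k ∧ z ∈ ZSet k ∧ (upd Tab k T e z).length ≤ qb k) := by
  by_cases h : e = se k ∧ z ∈ ZSet k
  · right
    refine ⟨h.1, h.2, ?_⟩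
    unfold upd
    rw [dif_pos h]
    exact (T ⟨z, h.2⟩).2
  · left
    unfold upd
    rw [dif_neg h]

/-- STA: entries of different stages are different -/
theorem upd_other (Tab : ℕ → Str → Str) (k k' : ℕ) (T : Z k → Q k) (hk : k' ≠ k)
    (h2 : 2 * sj k ≤ su k) (h2' : 2 * sj k' ≤ su k') (z : Str) (hz : z ∈ ZSet k') :
    upd Tab k T (se k') z = Tab (se k') z := by
  unfold upd
  rw [dif_neg]
  rintro ⟨he, hz'⟩
  apply hk
  have hj : sj k' = sj k := Nat.pow_right_injective (le_refl 2) he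
  have a1 : sm k ≤ z.length + 2 := hz'.1
  have a2 : z.length + 2 < sM k := hz'.2
  have b1 : sm k' ≤ z.length + 2 := hz.1
  have b2 : z.length + 2 < sM k' := hz.2
  have c1 : sm k < sM k' := a1.trans_lt b2
  have c2 : sm k' < sM k := b1.trans_lt a2
  unfold sm sM at c1 c2
  have d1 := (Nat.pow_lt_pow_iff_right (by norm_num : 1 < 2)).1
    ((Nat.pow_lt_pow_iff_right (by norm_num : 1 < 2)).1 c1)
  have d2 := (Nat.pow_lt_pow_iff_right (by norm_num : 1 < 2)).1
    ((Nat.pow_lt_pow_iff_right (by norm_num : 1 < 2)).1 c2)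
  have e1 := stage_eq k
  have e2 := stage_eq k'
  have hst : st k = st k' := by omega
  have hsu : su k' = su k := by
    unfold st at hst
    change su k - 2 * sj k = su k' - 2 * sj k' at hst
    omega
  rw [e1.1, e2.1, hsu, hj]


end Pool.Agent.TD
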