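import Pool.Agent.Lib_helper64.TD.Defs
import Pool.Agent.Lib_helper74.CKF.HYB
import Pool.Agent.Lib_helper74.CKF.HC
import Pool.Agent.Lib_helper74.CKF.MACH
import Pool.Agent.Lib_helper74.CKF.CARD
import Pool.Agent.Lib_helper74.CKF.ADDR
/-!
# TDP, block STB: numbers of a stage
-/

set_option autoImplicit false

namespace Pool.Agent.TD

open Pool.Agent.CK

theorem stb_sm_ge (k : ℕ) : 2 ≤ sm k := by
  unfold sm
  have h : 1 ≤ 2 ^ st k := Nat.one_le_two_pow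
  calc 2 = 2 ^ 1 := by norm_num
    _ ≤ 2 ^ 2 ^ st k := Nat.pow_le_pow_right (by norm_num) h

theorem stb_sM (k : ℕ) : sM k = sm k ^ 2 := by
  unfold sM sm
  rw [← pow_mul, pow_succ]

theorem stb_sn (k : ℕ) : sn k = sm k ^ 8 := by
  unfold sn sm
  rw [← pow_mul, pow_add]
  norm_num

theorem stb_sD (k : ℕ) (h2 : 2 * sj k ≤ su k) : sD k = sm k ^ (4 ^ sj k) := by
  have h : su k = st k + 2 * sj k := by
    have : st k = su k - 2 * sj k := rfl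
    omega
  unfold sD sm
  rw [h, ← pow_mul, pow_add, pow_mul (2 : ℕ) 2 (sj k)]
  norm_num

theorem stb_four (j : ℕ) (h : 5 ≤ j) : 10 * ((j + 1) * (j + 2)) ≤ 4 ^ j := by
  induction j, h using Nat.le_induction with
  | base => norm_num
  | succ j hj ih =>
    rw [pow_succ]
    nlinarith

theorem stb_base (m : ℕ) (hm : 2 ≤ m) : 3 * m ^ 8 + 4 ≤ m ^ 10 := by
  have h1 : 4 ≤ m ^ 2 := by nlinarith
  have h2 : 4 ≤ m ^ 8 := by
    calc 4 ≤ m ^ 2 := h1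
      _ ≤ m ^ 8 := Nat.pow_le_pow_right (by omega) (by norm_num)
  calc 3 * m ^ 8 + 4 ≤ 4 * m ^ 8 := by omega
    _ ≤ m ^ 2 * m ^ 8 := Nat.mul_le_mul_right _ h1
    _ = m ^ 10 := by ring

theorem stb_qb (k : ℕ) : qb k + 2 ≤ sm k ^ (10 * (sj k + 1)) := by
  unfold qb
  rw [stb_sn, pow_mul]
  have h := stb_base (sm k) (stb_sm_ge k)
  obtain ⟨a, ha⟩ : ∃ a, a = 3 * sm k ^ 8 + 2 := ⟨_, rfl⟩
  have h1 : a + 2 ≤ sm k ^ 10 := by omega
  have h2 : a ^ (sj k + 1) + 2 ≤ (a + 2) ^ (sj k + 1) := by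
    have h3 : a ^ sj k ≤ (a + 2) ^ sj k := Nat.pow_le_pow_left (by omega) _
    have h4 : 1 ≤ (a + 2) ^ sj k := Nat.one_le_pow _ _ (by omega)
    calc a ^ (sj k + 1) + 2 = a ^ sj k * a + 2 := by rw [pow_succ]
      _ ≤ (a + 2) ^ sj k * a + (a + 2) ^ sj k * 2 :=
          Nat.add_le_add (Nat.mul_le_mul_right _ h3) (by omega)
      _ = (a + 2) ^ (sj k + 1) := by rw [pow_succ]; ring
  rw [← ha]
  exact h2.trans (Nat.pow_le_pow_left h1 _)

/-- STB -/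
theorem qb_pow (k : ℕ) (h5 : 5 ≤ sj k) (h2 : 2 * sj k ≤ su k) :
    (qb k + 2) ^ (sj k + 2) ≤ sD k := by
  rw [stb_sD k h2]
  calc (qb k + 2) ^ (sj k + 2) ≤ (sm k ^ (10 * (sj k + 1))) ^ (sj k + 2) :=
        Nat.pow_le_pow_left (stb_qb k) _
    _ = sm k ^ (10 * ((sj k + 1) * (sj k + 2))) := by rw [← pow_mul]; ring_nf
    _ ≤ sm k ^ (4 ^ sj k) :=
        Nat.pow_le_pow_right (by have := stb_sm_ge k; omega) (stb_four _ h5)

/-- STB -/
theorem sM_pow (k : ℕ) (h5 : 5 ≤ sj k) (h2 : 2 * sj k ≤ su k) :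
    (sM k) ^ (sj k + 2) ≤ sD k := by
  rw [stb_sD k h2, stb_sM, ← pow_mul]
  apply Nat.pow_le_pow_right (by have := stb_sm_ge k; omega)
  have := stb_four _ h5
  nlinarith

theorem stb_sM_le (k : ℕ) : sM k ≤ qb k := by
  unfold qb
  have h1 : sM k ≤ sn k := by
    rw [stb_sM, stb_sn]
    exact Nat.pow_le_pow_right (by have := stb_sm_ge k; omega) (by norm_num)
  calc sM k ≤ 3 * sn k + 2 := by omega
    _ ≤ (3 * sn k + 2) ^ (sj k + 1) := Nat.le_self_pow (by omega) _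

/-- STB -/
theorem fits (k : ℕ) (h5 : 5 ≤ sj k) (h2 : 2 * sj k ≤ su k) : sM k + qb k + 3 ≤ sD k := by
  refine le_trans ?_ (qb_pow k h5 h2)
  have h1 := stb_sM_le k
  calc sM k + qb k + 3 ≤ (qb k + 2) ^ 2 := by nlinarith
    _ ≤ (qb k + 2) ^ (sj k + 2) := Nat.pow_le_pow_right (by omega) (by omega)

/-- STB -/
theorem qb_le_alen (k : ℕ) (h5 : 5 ≤ sj k) (h2 : 2 * sj k ≤ su k) (z : Str)
    (hz : z ∈ ZSet k) : qb k ≤ alen (se k) z := by
  have h1 := fits k h5 h2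
  have h3 : sm k ≤ z.length + 2 := hz.1
  have h4 : alen (se k) z = (z.length + 2) ^ (4 ^ sj k) := by
    unfold alen se
    rw [← pow_mul, mul_comm, pow_mul]
    norm_num
  rw [h4]
  rw [stb_sD k h2] at h1
  calc qb k ≤ sm k ^ (4 ^ sj k) := by omega
    _ ≤ (z.length + 2) ^ (4 ^ sj k) := Nat.pow_le_pow_left h3 _

/-- STB -/
theorem quest_le (k j : ℕ) (hj : j ≤ sj k) : 3 * sn k + (3 * sn k + 2) ^ j ≤ qb k := by
  unfold qb
  have h1 : (3 * sn k + 2) ^ j ≤ (3 * sn k + 2) ^ sj k :=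
    Nat.pow_le_pow_right (by omega) hj
  have h2 : 1 ≤ (3 * sn k + 2) ^ sj k := Nat.one_le_pow _ _ (by omega)
  rw [pow_succ]
  obtain ⟨P, hP⟩ : ∃ P, P = (3 * sn k + 2) ^ sj k := ⟨_, rfl⟩
  rw [← hP] at h1 h2 ⊢
  nlinarith

end Pool.Agent.TD
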