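import Pool.Agent.Lib_helper64.TD.Defs
import Pool.Agent.Lib_helper74.CKF.HYB
import Pool.Agent.Lib_helper74.CKF.HC
import Pool.Agent.Lib_helper74.CKF.MACH
import Pool.Agent.Lib_helper74.CKF.CARD
import Pool.Agent.Lib_helper74.CKF.ADDR
import Pool.Agent.Lib_helper74.CKF.ENUM
import Pool.Agent.Lib_helper74.CKF.PROG2
import Pool.Agent.Lib_helper64.TDF.CDA
import Pool.Agent.Lib_helper64.TDF.STA
import Pool.Agent.Lib_helper64.TDF.STB
/-!
# Block CDB: number of simulations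
-/

set_option autoImplicit false

namespace Pool.Agent.TD

open Pool.Agent.CK

theorem cdb_num (a L s q : ℕ) (h : s + q + 3 ≤ 2 ^ L) :
    2 ^ a + ((s + (q + 1) + 1) * 2 ^ (L + a + 2) + (q + 1 + 1) * 2 ^ L) ≤ 2 ^ (a + 2 * L + 4) := by
  have h1 : (s + (q + 1) + 1) * 2 ^ (L + a + 2) ≤ 2 ^ L * 2 ^ (L + a + 2) :=
    Nat.mul_le_mul_right _ (by omega)
  have h2 : (q + 1 + 1) * 2 ^ L ≤ 2 ^ L * 2 ^ L := Nat.mul_le_mul_right _ (by omega)
  have h3 : 2 ^ L * 2 ^ (L + a + 2) = 2 ^ (a + 2 * L + 2) := by rw [← pow_add]; congr 1; ring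
  have h4 : 2 ^ L * 2 ^ L ≤ 2 ^ (a + 2 * L + 2) := by
    rw [← pow_add]
    exact Nat.pow_le_pow_right (by norm_num) (by omega)
  have h5 : 2 ^ a ≤ 2 ^ (a + 2 * L + 2) := Nat.pow_le_pow_right (by norm_num) (by omega)
  have h6 : 2 ^ (a + 2 * L + 4) = 4 * 2 ^ (a + 2 * L + 2) := by rw [pow_add _ _ 4]; ring
  omega

/-- CDB -/
theorem card_simF (k n : ℕ) (Fm : Set (X (2 * n) → DT Str)) (h5 : 5 ≤ sj k)
    (h2 : 2 * sj k ≤ su k) (hk : k < KK n) (hF : CardBd Fm (2 ^ aa (k + 1) n)) :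
    CardBd (Sim k n Fm) (2 ^ (aa (k + 1) n + 2 * Lam n + 4)) := by
  have hfit : sM k + qb k + 3 ≤ 2 ^ Lam n := (fits k h5 h2).trans ((rel_iff k n).1 hk)
  have hZQ : Fintype.card (Z k × Q k) ≤ 2 ^ (sM k + (qb k + 1)) := by
    rw [Fintype.card_prod, pow_add]
    exact Nat.mul_le_mul (card_Z k) (card_Q k)
  have h1 := card_image (fun p : (X (2 * n) → DT Str) × (List (Z k × Q k) × List (Q k)) =>
      (fun x => simB [] (pos k) (rd k) (p.1 x) p.2.1 p.2.2))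
    (card_prod hF (card_prod (card_lists hZQ (ss k n)) (card_lists (card_Q k) (dd n))))
  refine card_mono h1 ?_ (cdb_num (aa (k + 1) n) (Lam n) (sM k) (qb k) hfit)
  rintro A' ⟨A, hA, ρ, hρ, r, hr, rfl⟩
  exact ⟨(A, (ρ, r)), ⟨hA, hρ, hr.le⟩, rfl⟩


end Pool.Agent.TD
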