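import Pool.Agent.Lib_helper64.TD.Defs
import Pool.Agent.Lib_helper74.CKF.HYB
import Pool.Agent.Lib_helper74.CKF.HC
import Pool.Agent.Lib_helper74.CKF.MACH
import Pool.Agent.Lib_helper74.CKF.CARD
import Pool.Agent.Lib_helper74.CKF.ADDR
/-!
# Block NU2: monotonicity of the numerical parameters
-/

set_option autoImplicit false

namespace Pool.Agent.TD

open Pool.Agent.CK

theorem nu2_cube (L : ℕ) (h : 4 ≤ L) : (L + 1) ^ 3 ≤ 2 * L ^ 3 := by
  obtain ⟨s, rfl⟩ := Nat.exists_eq_add_of_le h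
  ring_nf
  nlinarith [Nat.zero_le (s ^ 3), Nat.zero_le (s ^ 2), Nat.zero_le s]

theorem nu2_step (L : ℕ) (h : 4 ≤ L) : 2 ^ (L + 1) / L ^ 3 ≤ 2 ^ (L + 1 + 1) / (L + 1) ^ 3 := by
  have hpos : 0 < (L + 1) ^ 3 := by positivity
  rw [Nat.le_div_iff_mul_le hpos]
  calc 2 ^ (L + 1) / L ^ 3 * (L + 1) ^ 3 ≤ 2 ^ (L + 1) / L ^ 3 * (2 * L ^ 3) :=
        Nat.mul_le_mul_left _ (nu2_cube L h)
    _ = 2 * (2 ^ (L + 1) / L ^ 3 * L ^ 3) := by ring
    _ ≤ 2 * 2 ^ (L + 1) := Nat.mul_le_mul_left _ (Nat.div_mul_le_self _ _)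
    _ = 2 ^ (L + 1 + 1) := by ring

theorem nu2_chain (L M : ℕ) (h : 4 ≤ L) (hLM : L ≤ M) :
    2 ^ (L + 1) / L ^ 3 ≤ 2 ^ (M + 1) / M ^ 3 := by
  induction M, hLM using Nat.le_induction with
  | base => exact le_rfl
  | succ M hM ih => exact ih.trans (nu2_step M (h.trans hM))

/-- NU2 -/
theorem Lam_mono {n m : ℕ} (h : 16 ≤ n) (hnm : n ≤ m) : Lam n ≤ Lam m := by
  have h4 : 4 ≤ Nat.log 2 n := Nat.le_log_of_pow_le (by norm_num) (by simpa using h)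
  have h5 : Nat.log 2 n ≤ Nat.log 2 m := Nat.log_mono_right hnm
  unfold Lam
  exact Nat.add_le_add_right (nu2_chain _ _ h4 h5) 1

/-- NU2 -/
theorem KK_mono {n m : ℕ} (h : 16 ≤ n) (hnm : n ≤ m) : KK n ≤ KK m := by
  unfold KK
  exact Nat.pow_le_pow_left (Nat.add_le_add_right (Nat.log_mono_right (Lam_mono h hnm)) 1) 2

/-- NU2 -/
theorem aa_mono {n m : ℕ} (k : ℕ) (h : 16 ≤ n) (hnm : n ≤ m) : aa k n ≤ aa 0 m := by
  unfold aa
  have h1 : n / 3 ≤ m / 3 := Nat.div_le_div_right hnm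
  have h2 : KK n - k ≤ KK m - 0 := by
    have := KK_mono h hnm
    omega
  have h3 : 2 * Lam n + 8 ≤ 2 * Lam m + 8 := by
    have := Lam_mono h hnm
    omega
  exact Nat.add_le_add (Nat.add_le_add_right h1 2) (Nat.mul_le_mul h2 h3)

/-- NU2: `T(n) = 2 ^ (n / (log n)^3) ≤ 2 ^ (Lam n - 1)` -/
theorem div_log_lt_Lam (n : ℕ) : n / (Nat.log 2 n) ^ 3 < Lam n := by
  unfold Lam
  have h1 : n ≤ 2 ^ (Nat.log 2 n + 1) := (Nat.lt_pow_succ_log_self (by norm_num) n).le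
  exact Nat.lt_succ_of_le (Nat.div_le_div_right h1)

/-- NU2 -/
theorem NN_ge {n k : ℕ} (h : 16 ≤ n) (hn : n < 3 * sM k) :
    4 * dd n * Del (k + 1) n ≤ NN k := by
  have h1 := Lam_mono h hn.le
  have h2 := KK_mono h hn.le
  unfold NN Del dd
  refine Nat.mul_le_mul (Nat.mul_le_mul_left _ (Nat.pow_le_pow_right (by norm_num) h1)) ?_
  exact Nat.pow_le_pow_right (by norm_num) (by omega)

example : type_of% @Lam_mono := @Lam_mono
example : type_of% @KK_mono := @KK_mono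
example : type_of% @aa_mono := @aa_mono
example : type_of% @div_log_lt_Lam := @div_log_lt_Lam
example : type_of% @NN_ge := @NN_ge

end Pool.Agent.TD
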