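import Pool.Agent.Lib_helper64.TD.Defs
import Pool.Agent.Lib_helper74.CKF.HYB
import Pool.Agent.Lib_helper74.CKF.HC
import Pool.Agent.Lib_helper74.CKF.MACH
import Pool.Agent.Lib_helper74.CKF.CARD
import Pool.Agent.Lib_helper74.CKF.ADDR
/-!
# Block TRA: simulation of trees with values
-/

set_option autoImplicit false

namespace Pool.Agent.TD

open Pool.Agent.CK

section

variable {β γ Zt Qt ι : Type} [DecidableEq Zt]

/-- TRA -/
theorem simB_map (d0 : β) (f : β → γ) (ps : Str → Option (Zt × ι)) (rd : Qt → ι → Bool)
    (t : DT β) (ρ : List (Zt × Qt)) (r : List Qt) :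
    (simB d0 ps rd t ρ r).map f = simB (f d0) ps rd (t.map f) ρ r := by
  induction t generalizing ρ r with
  | leaf b => rfl
  | node w n0 n1 h0 h1 =>
    rw [DT.map, simB, simB]
    cases hp : ps w with
    | none => simp only [DT.map, h0, h1]
    | some p =>
      obtain ⟨z, i⟩ := p
      simp only
      cases hl : ρ.lookup z with
      | some q =>
        simp only
        split_ifs
        · exact h1 _ _
        · exact h0 _ _
      | none =>
        cases r with
        | nil => rfl
        | cons q r =>
          simp only
          split_ifs
          · exact h1 _ _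
          · exact h0 _ _

/-- TRA -/
theorem simB_sim (ps : Str → Option (Zt × ι)) (rd : Qt → ι → Bool) (t : DT Bool)
    (ρ : List (Zt × Qt)) (r : List Qt) : simB false ps rd t ρ r = sim ps rd t ρ r := by
  induction t generalizing ρ r with
  | leaf b => rfl
  | node w n0 n1 h0 h1 =>
    rw [simB, sim]
    cases hp : ps w with
    | none => simp only [h0, h1]
    | some p =>
      obtain ⟨z, i⟩ := p
      simp only
      cases hl : ρ.lookup z with
      | some q => simp only [h0, h1]
      | none =>
        cases r with
        | nil => rfl
        | cons q r => simp only [h0, h1]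

/-- TRA -/
theorem depth_simB (d0 : β) (ps : Str → Option (Zt × ι)) (rd : Qt → ι → Bool)
    (t : DT β) (ρ : List (Zt × Qt)) (r : List Qt) :
    (simB d0 ps rd t ρ r).depth ≤ t.depth := by
  induction t generalizing ρ r with
  | leaf b => simp [simB]
  | node w n0 n1 h0 h1 =>
    have a0 := h0 ρ r
    have a1 := h1 ρ r
    rw [simB, DT.depth_node]
    split
    · rw [DT.depth_node]; omega
    · split
      · split_ifs <;> omega
      · split
        · simp
        · rename_i q r
          split_ifs
          · refine (h1 _ _).trans ?_
            omega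
          · refine (h0 _ _).trans ?_
            omega

/-- TRA -/
theorem allQ_simB (P : Str → Prop) (d0 : β) (ps : Str → Option (Zt × ι)) (rd : Qt → ι → Bool)
    (t : DT β) (ρ : List (Zt × Qt)) (r : List Qt) (h : t.AllQ P) :
    (simB d0 ps rd t ρ r).AllQ P := by
  induction t generalizing ρ r with
  | leaf b => trivial
  | node w n0 n1 h0 h1 =>
    obtain ⟨hw, h2, h3⟩ := h
    rw [simB]
    split
    · exact ⟨hw, h0 _ _ h2, h1 _ _ h3⟩
    · split
      · split_ifs
        · exact h1 _ _ h3
        · exact h0 _ _ h2
      · split
        · trivial
        · split_ifs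
          · exact h1 _ _ h3
          · exact h0 _ _ h2

/-- TRA: if all entries are known, the simulation is correct -/
theorem simB_full (d0 : β) (ps : Str → Option (Zt × ι)) (rd : Qt → ι → Bool) (O : Lang)
    (T : Zt → Qt) (t : DT β) (ρ : List (Zt × Qt)) (r : List Qt)
    (h : ∀ z, ρ.lookup z = some (T z)) :
    (simB d0 ps rd t ρ r).eval O = t.eval (patch ps rd O T) := by
  induction t with
  | leaf b => rfl
  | node w n0 n1 h0 h1 =>
    rw [simB, DT.eval_node]
    cases hp : ps w with
    | none => simp only [DT.eval_node, patch, hp, h0, h1]
    | some p =>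
      obtain ⟨z, i⟩ := p
      simp only [patch, hp, h z]
      split_ifs
      · exact h1
      · exact h0

/-- TRA: as `step_sim_const` -/
theorem simB_const (d0 : β) (ps : Str → Option (Zt × ι)) (rd : Qt → ι → Bool) (O : Lang)
    (q0 : Qt) (t : DT β) (ρ : List (Zt × Qt)) (k : ℕ) (h : ∀ z q, ρ.lookup z = some q → q = q0)
    (hk : t.depth ≤ k) :
    (simB d0 ps rd t ρ (List.replicate k q0)).eval O = t.eval (patch ps rd O fun _ => q0) := by
  induction t generalizing ρ k with
  | leaf b => rfl
  | node w n0 n1 h0 h1 =>
    rw [DT.depth_node] at hk
    rw [simB, DT.eval_node]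
    cases hp : ps w with
    | none =>
      simp only [DT.eval_node, patch, hp]
      rw [h0 ρ k h (by omega), h1 ρ k h (by omega)]
    | some p =>
      obtain ⟨z, i⟩ := p
      have e : patch ps rd O (fun _ => q0) w = rd q0 i := by simp only [patch, hp]
      rw [e]
      cases hl : ρ.lookup z with
      | some q =>
        have := h z q hl
        subst this
        simp only [hl]
        by_cases hr : rd q i = true
        · simp only [hr, if_true]; exact h1 ρ k h (by omega)
        · simp only [hr]; exact h0 ρ k h (by omega)
      | none =>
        obtain ⟨k', rfl⟩ : ∃ k', k = k' + 1 := ⟨k - 1, by omega⟩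
        have hρ' : ∀ z' q, ((z, q0) :: ρ).lookup z' = some q → q = q0 := by
          intro z' q hz
          rw [List.lookup_cons] at hz
          split at hz
          · exact (Option.some.inj hz).symm
          · exact h z' q hz
        simp only [hl, List.replicate_succ]
        by_cases hr : rd q0 i = true
        · simp only [hr, if_true]; exact h1 _ k' hρ' (by omega)
        · simp only [hr]; exact h0 _ k' hρ' (by omega)

end


end Pool.Agent.TD
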