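import Pool.Agent.Lib_helper64.TD.Defs
import Pool.Agent.Lib_helper74.CKF.HYB
import Pool.Agent.Lib_helper74.CKF.HC
import Pool.Agent.Lib_helper74.CKF.MACH
import Pool.Agent.Lib_helper74.CKF.CARD
import Pool.Agent.Lib_helper74.CKF.ADDR
/-!
# Block TRB: sequences of trees, transformation of trees
-/

set_option autoImplicit false

namespace Pool.Agent.TD

open Pool.Agent.CK

theorem trb_allQ_map {β γ : Type} (P : Str → Prop) (t : DT β) (f : β → γ) (h : t.AllQ P) :
    (t.map f).AllQ P := by
  induction t with
  | leaf b => trivial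
  | node w n0 n1 h0 h1 => exact ⟨h.1, h0 h.2.1, h1 h.2.2⟩

theorem trb_allQ_bind {β γ : Type} (P : Str → Prop) (t : DT β) (f : β → DT γ) (h : t.AllQ P)
    (hf : ∀ b, (f b).AllQ P) : (t.bind f).AllQ P := by
  induction t with
  | leaf b => exact hf b
  | node w n0 n1 h0 h1 => exact ⟨h.1, h0 h.2.1, h1 h.2.2⟩

/-- TRB -/
theorem seqT_eval (O : Lang) (l : List (DT Bool)) :
    (seqT l).eval O = l.map fun t => t.eval O := by
  induction l with
  | nil => rfl
  | cons t l ih => rw [seqT, DT.eval_bind, DT.eval_map, ih, List.map_cons]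

/-- TRB -/
theorem seqT_depth (l : List (DT Bool)) (d : ℕ) (h : ∀ t ∈ l, t.depth ≤ d) :
    (seqT l).depth ≤ l.length * d := by
  induction l with
  | nil => simp [seqT]
  | cons t l ih =>
    rw [seqT]
    refine (DT.depth_bind _ _ (l.length * d) ?_).trans ?_
    · intro b
      rw [DT.depth_map]
      exact ih fun t ht => h t (List.mem_cons_of_mem _ ht)
    · have := h t (List.mem_cons_self ..)
      simp only [List.length_cons]
      have e : (l.length + 1) * d = l.length * d + d := by ring
      omega

/-- TRB -/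
theorem seqT_allQ (P : Str → Prop) (l : List (DT Bool)) (h : ∀ t ∈ l, t.AllQ P) :
    (seqT l).AllQ P := by
  induction l with
  | nil => trivial
  | cons t l ih =>
    rw [seqT]
    refine trb_allQ_bind P _ _ (h t (List.mem_cons_self ..)) fun b => ?_
    exact trb_allQ_map P _ _ (ih fun t ht => h t (List.mem_cons_of_mem _ ht))

/-- TRB -/
theorem allQ_thr (P : Str → Prop) (l : List (DT Bool)) (θ : ℕ) (h : ∀ t ∈ l, t.AllQ P) :
    (DT.thr l θ).AllQ P := by
  have hc : (DT.count l).AllQ P := by
    induction l with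
    | nil => trivial
    | cons t l ih =>
      rw [DT.count]
      refine trb_allQ_bind P _ _ (h t (List.mem_cons_self ..)) fun b => ?_
      exact trb_allQ_map P _ _ (ih fun t ht => h t (List.mem_cons_of_mem _ ht))
  exact trb_allQ_map P _ _ hc

/-- TRB -/
theorem allQ_tr {β : Type} (P : Str → Prop) (f : Str → DT Bool) (t : DT β)
    (ht : t.AllQ fun w => ∀ u, w = false :: u → P u) (hf : ∀ q, (f q).AllQ P) :
    (DT.tr f t).AllQ P := by
  induction t with
  | leaf b => trivial
  | node w n0 n1 h0 h1 =>
    obtain ⟨hw, h2, h3⟩ := ht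
    match w with
    | [] => rw [DT.tr]; exact h0 h2
    | false :: w => rw [DT.tr]; exact ⟨hw w rfl, h0 h2, h1 h3⟩
    | true :: q =>
      rw [DT.tr]
      refine trb_allQ_bind P _ _ (hf q) fun a => ?_
      cases a
      · exact h0 h2
      · exact h1 h3

/-- TRB -/
theorem unitv_length (n i : ℕ) : (unitv n i).length = n := by
  simp [unitv]

/-- TRB -/
theorem invTree_depth (i n : ℕ) (x : Str) (hx : x.length = 2 * n) :
    (invTree i n x).depth ≤ n * (3 * n + 2) ^ ex i := by
  have h := seqT_depth ((List.range n).map fun k => PT i (x ++ unitv n k))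
    ((3 * n + 2) ^ ex i) (by
      intro t ht
      obtain ⟨k, _, rfl⟩ := List.mem_map.1 ht
      have e : (x ++ unitv n k).length = 3 * n := by
        rw [List.length_append, unitv_length, hx]; omega
      have := depth_PT i (x ++ unitv n k)
      rwa [e] at this)
  rw [List.length_map, List.length_range] at h
  exact h

/-- TRB -/
theorem invTree_allQ (i n : ℕ) (x : Str) (hx : x.length = 2 * n) :
    (invTree i n x).AllQ fun w => w.length ≤ 3 * n + (3 * n + 2) ^ ex i := by
  refine seqT_allQ _ _ ?_
  intro t ht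
  obtain ⟨k, _, rfl⟩ := List.mem_map.1 ht
  have e : (x ++ unitv n k).length = 3 * n := by
    rw [List.length_append, unitv_length, hx]; omega
  have := allQ_PT i (x ++ unitv n k)
  rwa [e] at this


end Pool.Agent.TD
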