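import Pool.Agent.Lib_helper64.TD.Defs
import Pool.Agent.Lib_helper74.CKF.HYB
import Pool.Agent.Lib_helper74.CKF.HC
import Pool.Agent.Lib_helper74.CKF.MACH
import Pool.Agent.Lib_helper74.CKF.CARD
import Pool.Agent.Lib_helper74.CKF.ADDR
import Pool.Agent.Lib_helper74.CKF.ENUM
import Pool.Agent.Lib_helper74.CKF.PROG2
import Pool.Agent.Lib_helper64.TDF.NU2
import Pool.Agent.Lib_helper64.TDF.STB
import Pool.Agent.Lib_helper64.TDF.TRA
import Pool.Agent.Lib_helper64.TDF.TRB
set_option autoImplicit false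

namespace Pool.Agent.TD

open Pool.Agent.CK

theorem cdd_ex_le (k : ℕ) : ex (iM (sj k)) ≤ sj k := by
  have h1 : ex (iM (sj k)) ≤ iM (sj k) := Nat.unpair_right_le _
  have h2 : iM (sj k) ≤ (sj k).unpair.2 := Nat.unpair_left_le _
  have h3 : (sj k).unpair.2 ≤ sj k := Nat.unpair_right_le _
  omega

theorem cdd_dd_mono {n m : ℕ} (h : 16 ≤ n) (hnm : n ≤ m) : dd n ≤ dd m := by
  unfold dd
  exact Nat.pow_le_pow_right (by norm_num) (Lam_mono h hnm)

theorem cdd_tree_depth {n0 k : ℕ} {Fm : Fam} (h16 : 16 ≤ n0) (hF : Bdd n0 (k + 1) Fm)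
    {t : Tst k} (ht : TstOK n0 k Fm t) (q : Q k) :
    (t.tree q).depth ≤ dd (3 * sM k) ∧ (t.tree q).AllQ fun w => w.length ≤ dd (3 * sM k) := by
  obtain ⟨n, hn0, hn, _, ⟨A, hA, x, hx⟩, _⟩ := ht
  obtain ⟨_, _, h3⟩ := hF n hn0
  obtain ⟨h4, h5⟩ := h3 A hA x
  have hm : dd n ≤ dd (3 * sM k) := cdd_dd_mono (le_trans h16 hn0) hn.le
  constructor
  · unfold Tst.tree
    rw [DT.depth_map]
    refine (depth_simB _ _ _ _ _ _).trans ?_
    rw [hx]
    exact h4.trans hm
  · unfold Tst.tree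
    apply mach_allQ_map
    apply allQ_simB
    rw [hx]
    exact h5.mono fun w hw => le_trans hw hm

/-- CDD -/
theorem cmp_depth (n0 k : ℕ) (Fm : Fam) (h16 : 16 ≤ n0) (hK : NumK n0 k)
    (hF : Bdd n0 (k + 1) Fm) (n : ℕ) :
    ∀ A ∈ Cmp n0 k Fm n, ∀ x, (A x).depth ≤ dd n ∧ (A x).AllQ fun w => w.length ≤ dd n := by
  rintro A ⟨hn, l, hl, hOK, θ, hθ, rfl⟩ x
  subst hn
  have hdm : dd (3 * sM k) ≤ dd (sn k) := hK.hdd
  constructor
  · have h1 : ∀ q, (thrT l θ q).depth ≤ lenk k * dd (3 * sM k) + 1 := by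
      intro q
      unfold thrT
      split_ifs with hq
      · refine (DT.depth_thr _ _ (dd (3 * sM k)) ?_).trans ?_
        · intro t ht
          obtain ⟨t', ht', rfl⟩ := List.mem_map.1 ht
          exact (cdd_tree_depth h16 hF (hOK t' ht') _).1
        · rw [List.length_map]
          have := Nat.mul_le_mul_right (dd (3 * sM k)) hl
          omega
      · simp
    have h2 := DT.depth_tr (thrT l θ) (invTree (iM (sj k)) (sn k) x.1) _ (by omega) h1
    refine h2.trans (le_trans ?_ hK.hdepth)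
    have h3 := invTree_depth (iM (sj k)) (sn k) x.1 x.2
    have h4 : (3 * sn k + 2) ^ ex (iM (sj k)) ≤ (3 * sn k + 2) ^ sj k :=
      Nat.pow_le_pow_right (by omega) (cdd_ex_le k)
    calc (invTree (iM (sj k)) (sn k) x.1).depth * (lenk k * dd (3 * sM k) + 1)
        ≤ (sn k * (3 * sn k + 2) ^ ex (iM (sj k))) * (lenk k * dd (3 * sM k) + 1) :=
          Nat.mul_le_mul_right _ h3
      _ ≤ (sn k * (3 * sn k + 2) ^ sj k) * (lenk k * dd (3 * sM k) + 1) :=
          Nat.mul_le_mul_right _ (Nat.mul_le_mul_left _ h4)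
      _ = sn k * ((3 * sn k + 2) ^ sj k * (lenk k * dd (3 * sM k) + 1)) := by ring
  · apply allQ_tr
    · refine (invTree_allQ (iM (sj k)) (sn k) x.1 x.2).mono ?_
      intro w hw u hu
      have hq := quest_le k (ex (iM (sj k))) (cdd_ex_le k)
      have hlen := hK.hlen
      rw [hu, List.length_cons] at hw
      omega
    · intro q
      unfold thrT
      split_ifs with hq
      · apply allQ_thr
        intro t ht
        obtain ⟨t', ht', rfl⟩ := List.mem_map.1 ht
        exact (cdd_tree_depth h16 hF (hOK t' ht') _).2.mono fun w hw => le_trans hw hdm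
      · trivial

end Pool.Agent.TD
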