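import Pool.Agent.Lib_helper64.TD.Defs
import Pool.Agent.Lib_helper74.CKF.HYB
import Pool.Agent.Lib_helper74.CKF.HC
import Pool.Agent.Lib_helper74.CKF.MACH
import Pool.Agent.Lib_helper74.CKF.CARD
import Pool.Agent.Lib_helper74.CKF.ADDR
/-!
# Block NU1: numerical conditions for levels
-/

set_option autoImplicit false

namespace Pool.Agent.TD

open Pool.Agent.CK

theorem nu1_pow (L : ℕ) (h : 100 ≤ L) : 2 * L ^ 4 ≤ 2 ^ L := by
  induction L, h using Nat.le_induction with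
  | base => norm_num
  | succ L hL ih =>
    have h1 : (L + 1) ^ 4 ≤ 2 * L ^ 4 := by
      have h3 : 15 * L ^ 3 ≤ L * L ^ 3 := Nat.mul_le_mul_right _ (by omega)
      have h4 : L ^ 2 ≤ L ^ 3 := Nat.pow_le_pow_right (by omega) (by norm_num)
      have h5 : L ≤ L ^ 3 := Nat.le_self_pow (by norm_num) L
      have h6 : 1 ≤ L ^ 3 := Nat.one_le_pow _ _ (by omega)
      nlinarith
    calc 2 * (L + 1) ^ 4 ≤ 2 * (2 * L ^ 4) := Nat.mul_le_mul_left _ h1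
      _ ≤ 2 * 2 ^ L := Nat.mul_le_mul_left _ ih
      _ = 2 ^ (L + 1) := by ring

/-- NU1 -/
theorem exists_n0 : ∃ n0 : ℕ, ∀ n, n0 ≤ n → NumN n := by
  refine ⟨2 ^ 100, fun n hn => ?_⟩
  obtain ⟨L, hL⟩ : ∃ L, L = Nat.log 2 n := ⟨_, rfl⟩
  have hn0 : n ≠ 0 := by
    have : 0 < 2 ^ 100 := by positivity
    omega
  have hL100 : 100 ≤ L := by
    rw [hL]
    exact Nat.le_log_of_pow_le (by norm_num) hn
  have h1 : 2 ^ L ≤ n := by
    rw [hL]; exact Nat.pow_log_le_self 2 hn0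
  have h2 : n < 2 ^ (L + 1) := by
    rw [hL]; exact Nat.lt_pow_succ_log_self (by norm_num) n
  have hp := nu1_pow L hL100
  obtain ⟨q, hq⟩ : ∃ q, q = 2 ^ (L + 1) / L ^ 3 := ⟨_, rfl⟩
  have hLam : Lam n = q + 1 := by rw [Lam, ← hL, hq]
  have hL3 : 0 < L ^ 3 := by positivity
  have hq1 : q * L ^ 3 ≤ 2 ^ (L + 1) := by
    rw [hq]; exact Nat.div_mul_le_self _ _
  have h2L : 2 ^ (L + 1) = 2 * 2 ^ L := by ring
  have hq2 : q * L ^ 3 ≤ 2 * n := by omega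
  have hL2 : 10000 ≤ L ^ 2 := by nlinarith
  -- `L² q ≤ n / 50`
  have hq3 : 50 * (L ^ 2 * q) ≤ n := by
    have h3 : 100 * (L ^ 2 * q) ≤ L * (L ^ 2 * q) := Nat.mul_le_mul_right _ hL100
    have h4 : L * (L ^ 2 * q) = q * L ^ 3 := by ring
    omega
  -- `20000 L² ≤ n`
  have hLn : 20000 * L ^ 2 ≤ n := by
    have h3 : 10000 * L ^ 2 ≤ L ^ 2 * L ^ 2 := Nat.mul_le_mul_right _ hL2
    have h4 : L ^ 2 * L ^ 2 = L ^ 4 := by ring
    omega
  have hLL : L ≤ L ^ 2 := Nat.le_self_pow (by norm_num) L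
  have hqq : q ≤ L ^ 2 * q := Nat.le_mul_of_pos_left _ (by positivity)
  -- lower bound for `q`
  have hq4 : L + 2 ≤ q := by
    rw [hq, Nat.le_div_iff_mul_le hL3]
    have h3 : (L + 2) * L ^ 3 = L ^ 4 + 2 * L ^ 3 := by ring
    have h4 : 2 * L ^ 3 ≤ L * L ^ 3 := Nat.mul_le_mul_right _ (by omega)
    have h5 : L * L ^ 3 = L ^ 4 := by ring
    omega
  -- `KK`
  have hK : KK n ≤ (L + 1) ^ 2 := by
    rw [KK]
    apply Nat.pow_le_pow_left
    have h3 : Nat.log 2 (Lam n) ≤ L := by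
      rw [hLam]
      have h4 : q + 1 ≤ n := by omega
      rw [hL]
      exact Nat.log_mono_right h4
    omega
  have hK1 : (L + 1) ^ 2 ≤ 2 * L ^ 2 := by nlinarith
  have hK2 : KK n ≤ 2 * L ^ 2 := hK.trans hK1
  have hKL : KK n * (2 * Lam n + 8) ≤ 4 * (L ^ 2 * q) + 20 * L ^ 2 := by
    rw [hLam]
    calc KK n * (2 * (q + 1) + 8) ≤ 2 * L ^ 2 * (2 * (q + 1) + 8) :=
          Nat.mul_le_mul_right _ hK2
      _ = 4 * (L ^ 2 * q) + 20 * L ^ 2 := by ring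
  have haa : aa 0 n = n / 3 + 2 + KK n * (2 * Lam n + 8) := by rw [aa, Nat.sub_zero]
  have hn3 : L + 1 ≤ n / 3 := by
    rw [Nat.le_div_iff_mul_le (by norm_num)]
    omega
  refine ⟨?_, ?_, ?_, ?_, ?_, ?_⟩
  · have : (16 : ℕ) ≤ 2 ^ 100 := by norm_num
    omega
  · rw [haa]
    omega
  · rw [hLam]
    omega
  · rw [hLam, Nat.add_sub_cancel]
    have h3 : 2 ^ (L + 2) ≤ 2 ^ q := Nat.pow_le_pow_right (by norm_num) hq4
    have h4 : 2 ^ (L + 2) = 2 * 2 ^ (L + 1) := by ring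
    omega
  · have h3 : 2 * n + 3 ≤ 2 ^ (aa 0 n) := by
      have h4 : 2 ^ (L + 3) ≤ 2 ^ (aa 0 n) := Nat.pow_le_pow_right (by norm_num) (by
        rw [haa]; omega)
      have h5 : 2 ^ (L + 3) = 4 * 2 ^ (L + 1) := by ring
      omega
    have h6 : aa 0 n + 1 ≤ n - (2 * Lam n + 2 * KK n + 3) := by
      rw [haa, hLam] at *
      omega
    have h7 : 2 ^ (aa 0 n + 1) ≤ 2 ^ (n - (2 * Lam n + 2 * KK n + 3)) :=
      Nat.pow_le_pow_right (by norm_num) h6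
    have h8 : 2 ^ (aa 0 n + 1) = 2 * 2 ^ (aa 0 n) := by ring
    omega
  · rw [hLam]
    rw [Nat.le_div_iff_mul_le (by norm_num)]
    omega

end Pool.Agent.TD
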