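import Pool.Agent.Lib_helper64.TDF.STB
import Pool.Agent.Lib_helper64.TDF.TRB
import Pool.Agent.Lib_helper74.CKF.MACH

set_option autoImplicit false

namespace Pool.Agent.TD

open Pool.Agent.CK

theorem gcg_unpair (j : ℕ) : iC j ≤ j ∧ iM j ≤ j ∧ iN j ≤ j := by
  refine ⟨Nat.unpair_left_le j, ?_, ?_⟩
  · exact (Nat.unpair_left_le _).trans (Nat.unpair_right_le j)
  · exact (Nat.unpair_left_le _).trans ((Nat.unpair_right_le _).trans (Nat.unpair_right_le j))

/-- GCG -/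
theorem nlC_congr {k : ℕ} {O O' : Lang} (h5 : 5 ≤ sj k) (h2 : 2 * sj k ≤ su k)
    (h : ∀ w : Str, w.length < sD k → O w = O' w) (q : Str) (hq : q.length ≤ qb k) :
    NL (iC (sj k)) O q = NL (iC (sj k)) O' q := by
  apply NL_congr
  intro w hw
  apply h
  refine hw.trans_le ?_
  calc (q.length + 2) ^ (iC (sj k) + 2) ≤ (qb k + 2) ^ (iC (sj k) + 2) :=
        Nat.pow_le_pow_left (by omega) _
    _ ≤ (qb k + 2) ^ (sj k + 2) :=
        Nat.pow_le_pow_right (by omega) (by have := (gcg_unpair (sj k)).1; omega)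
    _ ≤ sD k := qb_pow k h5 h2

/-- GCG -/
theorem nlN_congr {k : ℕ} {O O' : Lang} (h5 : 5 ≤ sj k) (h2 : 2 * sj k ≤ su k)
    (h : ∀ w : Str, w.length < sD k → O w = O' w) (z : Str) (hz : z ∈ ZSet k) :
    NL (iN (sj k)) O z = NL (iN (sj k)) O' z := by
  apply NL_congr
  intro w hw
  apply h
  refine hw.trans_le ?_
  have h1 : z.length + 2 < sM k := hz.2
  calc (z.length + 2) ^ (iN (sj k) + 2) ≤ (sM k) ^ (iN (sj k) + 2) :=
        Nat.pow_le_pow_left h1.le _
    _ ≤ (sM k) ^ (sj k + 2) :=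
        Nat.pow_le_pow_right (by omega) (by have := (gcg_unpair (sj k)).2.2; omega)
    _ ≤ sD k := sM_pow k h5 h2

attribute [local irreducible] sn qb sD sj su in
theorem gcg_corr {S : Sec} {k : ℕ} {O O' : Lang} (h5 : 5 ≤ sj k) (h2 : 2 * sj k ≤ su k)
    (h : ∀ w : Str, w.length < sD k → O w = O' w) (hC : Corr S k O) : Corr S k O' := by
  intro x i hi
  rw [← hC x i hi]
  rw [← eval_PT, ← eval_PT]
  have hlen : (x.1 ++ unitv (sn k) i).length = 3 * sn k := by
    rw [List.length_append, unitv_length, x.2]; ring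
  have hq := allQ_PT (iM (sj k)) (x.1 ++ unitv (sn k) i)
  rw [hlen] at hq
  have hex : ex (iM (sj k)) ≤ sj k := (Nat.unpair_right_le _).trans (gcg_unpair (sj k)).2.1
  have hb := quest_le k (ex (iM (sj k))) hex
  have hqb : qb k < sD k := by have := fits k h5 h2; omega
  symm
  apply DT.eval_join_congr _ _ hq
  · intro w hw
    simp only [List.length_cons] at hw
    exact h w (by omega)
  · intro w hw
    simp only [List.length_cons] at hw
    exact nlC_congr h5 h2 h w (by omega)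

/-- GCG -/
theorem corr_congr {S : Sec} {k : ℕ} {O O' : Lang} (h5 : 5 ≤ sj k) (h2 : 2 * sj k ≤ su k)
    (h : ∀ w : Str, w.length < sD k → O w = O' w) : Corr S k O ↔ Corr S k O' :=
  ⟨gcg_corr h5 h2 h, gcg_corr h5 h2 fun w hw => (h w hw).symm⟩

/-- GCG -/
theorem goal_congr {S : Sec} {k : ℕ} {O O' : Lang} {Tab Tab' : ℕ → Str → Str} (h5 : 5 ≤ sj k)
    (h2 : 2 * sj k ≤ su k) (h : ∀ w : Str, w.length < sD k → O w = O' w)
    (hT : ∀ z ∈ ZSet k, Tab (se k) z = Tab' (se k) z) (hG : Goal S k O Tab) :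
    Goal S k O' Tab' := by
  obtain ⟨h1, h3⟩ := hG
  refine ⟨fun z hz => by rw [← hT z hz]; exact h1 z hz, fun hC => ?_⟩
  obtain ⟨h4, q0, q1, hq0, hq1, h6, h7⟩ := h3 ((corr_congr h5 h2 h).2 hC)
  refine ⟨fun z hz => ?_, q0, q1, hq0, hq1, ?_, ?_⟩
  · rw [← hT z hz, ← nlC_congr h5 h2 h _ (h1 z hz), ← nlN_congr h5 h2 h z hz]
    exact h4 z hz
  · rw [← nlC_congr h5 h2 h q0 hq0]; exact h6
  · rw [← nlC_congr h5 h2 h q1 hq1]; exact h7

end Pool.Agent.TD
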