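import Pool.Agent.Lib_helper64.TD.Defs
import Pool.Agent.Lib_helper74.CKF.HYB
import Pool.Agent.Lib_helper74.CKF.HC
import Pool.Agent.Lib_helper74.CKF.MACH
import Pool.Agent.Lib_helper74.CKF.CARD
import Pool.Agent.Lib_helper74.CKF.ADDR
import Pool.Agent.Lib_helper74.CKF.ENUM
import Pool.Agent.Lib_helper74.CKF.PROG2
import Pool.Agent.Lib_helper64.TDF.GCG
/-!
# Block AGR: goals and security depend on finitely many coordinates
-/

set_option autoImplicit false

namespace Pool.Agent.TD

open Pool.Agent.CK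

theorem agr_len {w : Str} {p : (ℕ × Str) × (ℕ × Bool)} (h : tdec w = some p) :
    p.1.1 ≤ w.length ∧ p.1.2.length ≤ w.length := by
  have e := tdec_eq h
  have e2 := congrArg List.length e
  simp only [taddr, ones, List.length_cons, List.length_append, List.length_replicate] at e2
  omega

theorem agr_GG {b : ℕ} {S S' : Sec} (h : ∀ n, n ≤ b → S.g n = S'.g n ∧ S.f n = S'.f n)
    (z : Str) (hz : z.length ≤ b) : GG S z = GG S' z := by
  unfold GG
  rw [(h _ hz).1]

theorem agr_FF {b : ℕ} {S S' : Sec} (h : ∀ n, n ≤ b → S.g n = S'.g n ∧ S.f n = S'.f n)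
    (z : Str) (hz : z.length ≤ b) : FF S z = FF S' z := by
  have h2 := (h (z.length / 2) (by omega)).2
  unfold FF
  split_ifs with h1
  · rw [h2]
  · rfl

theorem agr_HH {b : ℕ} {S S' : Sec} (h : ∀ n, n ≤ b → S.g n = S'.g n ∧ S.f n = S'.f n)
    (z : Str) (hz : z.length ≤ b) : HH S z = HH S' z := by
  obtain ⟨h3, h2⟩ := h (z.length / 2) (by omega)
  unfold HH
  split_ifs with h1
  · rw [h2, h3]
  · rfl

theorem agr_val {b : ℕ} {S S' : Sec} {Tab Tab' : ℕ → Str → Str} (h : Agree b S S' Tab Tab')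
    (e : ℕ) (he : e ≤ b) (z : Str) (hz : z.length ≤ b) : val S Tab e z = val S' Tab' e z := by
  unfold val
  rw [agr_GG h.1 z hz, agr_FF h.1 z hz, agr_HH h.1 z hz, h.2 e he z hz]

/-- AGR -/
theorem orc_agree {b : ℕ} {S S' : Sec} {Tab Tab' : ℕ → Str → Str} (h : Agree b S S' Tab Tab')
    (w : Str) (hw : w.length ≤ b) : orc S Tab w = orc S' Tab' w := by
  unfold orc
  cases hp : tdec w with
  | none => rfl
  | some p =>
    obtain ⟨h1, h2⟩ := agr_len hp
    show bit (val S Tab p.1.1 p.1.2) p.2 = bit (val S' Tab' p.1.1 p.1.2) p.2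
    rw [agr_val h _ (h1.trans hw) _ (h2.trans hw)]

theorem agr_vv {S S' : Sec} {n : ℕ} (h : S.f n = S'.f n) : vv S n = vv S' n := by
  funext x
  unfold vv
  rw [h]

theorem agr_VV {S S' : Sec} (w : Str) (h : S.f (w.length / 3) = S'.f (w.length / 3)) :
    VV S w = VV S' w := by
  unfold VV
  split_ifs with h1
  · rw [agr_vv h]
  · rfl

theorem agr_unitv_length (n i : ℕ) : (unitv n i).length = n := by
  simp [unitv]

theorem agr_corr {S S' : Sec} {k : ℕ} {O : Lang} (h : S.f (sn k) = S'.f (sn k))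
    (hc : Corr S k O) : Corr S' k O := by
  intro x i hi
  rw [hc x i hi]
  apply agr_VV
  have e : (x.1 ++ unitv (sn k) i).length / 3 = sn k := by
    rw [List.length_append, agr_unitv_length, x.2]
    omega
  rw [e, h]

/-- AGR -/
theorem goal_agree (k : ℕ) (h5 : 5 ≤ sj k) (h2 : 2 * sj k ≤ su k) :
    ∃ b, ∀ S S' Tab Tab', Agree b S S' Tab Tab' → Goal S' k (orc S' Tab') Tab' →
      Goal S k (orc S Tab) Tab := by
  refine ⟨sD k + sn k + se k + sM k, fun S S' Tab Tab' hA hG => ?_⟩
  have hO : ∀ w : Str, w.length < sD k → orc S' Tab' w = orc S Tab w := by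
    intro w hw
    exact (orc_agree hA w (by omega)).symm
  have hT : ∀ z ∈ ZSet k, Tab' (se k) z = Tab (se k) z := by
    intro z hz
    have hz2 : z.length + 2 < sM k := hz.2
    exact (hA.2 (se k) (by omega) z (by omega)).symm
  have hG' : Goal S' k (orc S Tab) Tab := goal_congr h5 h2 hO hT hG
  refine ⟨hG'.1, fun hc => hG'.2 (agr_corr ?_ hc)⟩
  exact (hA.1 (sn k) (by omega)).2

/-- AGR -/
theorem sec_agree (n : ℕ) :
    ∃ b, ∀ S S' Tab Tab', Agree b S S' Tab Tab' → SecAt S' Tab' n → SecAt S Tab n := by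
  refine ⟨2 * n + 2 ^ (Lam n - 1) + 2 ^ (Lam n - 1), fun S S' Tab Tab' hA hS A hAF => ?_⟩
  have h1 := hS A hAF
  obtain ⟨-, c, -, w, hw, t, ht, rfl⟩ := hAF
  have hv : vv S n = vv S' n := agr_vv (hA.1 n (by omega)).2
  have he : ∀ x : X (2 * n),
      ((runTree t ([c], init x.1 w)).map fun cf => cf.2 0).eval (orc S Tab) =
        ((runTree t ([c], init x.1 w)).map fun cf => cf.2 0).eval (orc S' Tab') := by
    intro x
    apply DT.eval_congr _ (fun w => w.length < 2 * n + 2 ^ (Lam n - 1) + 2 ^ (Lam n - 1))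
    · apply mach_allQ_map
      apply mach_allQ_runTree t _ (2 * n + 2 ^ (Lam n - 1)) _ _ (by omega)
      exact mach_init_len x.1 w _ (by rw [x.2]; omega) (by omega)
    · intro u hu
      exact orc_agree hA u (by omega)
  have hh : hits n (vv S n) (fun x => (runTree t ([c], init x.1 w)).map fun cf => cf.2 0)
      (orc S Tab) = hits n (vv S' n)
      (fun x => (runTree t ([c], init x.1 w)).map fun cf => cf.2 0) (orc S' Tab') := by
    unfold hits
    congr 1
    apply Finset.filter_congr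
    intro x _
    rw [he x, hv]
  rw [hh]
  exact h1

end Pool.Agent.TD
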