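import Pool.Agent.Lib_helper64.TDF.CDA
import Pool.Agent.Lib_helper64.TDF.STA
import Pool.Agent.Lib_helper64.TDF.STB
import Pool.Agent.Lib_helper64.TDF.NU2

set_option autoImplicit false

namespace Pool.Agent.TD

open Pool.Agent.CK

theorem cdc_num (a L s q n : ℕ) (h : s + q + 3 ≤ 2 ^ L) (ha : n / 3 + 2 ≤ a) :
    (2 ^ a + 2 * n) + ((n + 1) + ((s + (q + 1) + 1) * 2 ^ (L + a + 2) +
      ((q + 1 + 1) * 2 ^ L + (q + 1 + 1) * 2 ^ L))) ≤ 2 ^ (2 * L + a + 5) := by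
  have h1 : (s + (q + 1) + 1) * 2 ^ (L + a + 2) ≤ 2 ^ L * 2 ^ (L + a + 2) :=
    Nat.mul_le_mul_right _ (by omega)
  have h2 : (q + 1 + 1) * 2 ^ L ≤ 2 ^ L * 2 ^ L := Nat.mul_le_mul_right _ (by omega)
  have h3 : 2 ^ L * 2 ^ (L + a + 2) = 2 ^ (a + 2 * L + 2) := by rw [← pow_add]; congr 1; ring
  have h4 : 2 ^ L * 2 ^ L ≤ 2 ^ (a + 2 * L + 2) := by
    rw [← pow_add]
    exact Nat.pow_le_pow_right (by norm_num) (by omega)
  have h5 : 2 ^ a ≤ 2 ^ (a + 2 * L + 2) := Nat.pow_le_pow_right (by norm_num) (by omega)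
  have h6 : 2 ^ (2 * L + a + 5) = 8 * 2 ^ (a + 2 * L + 2) := by
    have e : 2 * L + a + 5 = (a + 2 * L + 2) + 3 := by ring
    rw [e, pow_add _ _ 3]; ring
  have h7 : 3 * n + 1 ≤ 2 ^ (a + 2 * L + 2) := by
    have e1 : n / 3 < 2 ^ (n / 3) := Nat.lt_two_pow_self
    have e2 : 2 ^ (n / 3 + 4) ≤ 2 ^ (a + 2 * L + 2) :=
      Nat.pow_le_pow_right (by norm_num) (by omega)
    have e3 : 2 ^ (n / 3 + 4) = 16 * 2 ^ (n / 3) := by rw [pow_add]; ring
    omega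
  omega

/-- CDC -/
theorem card_tests (n0 k : ℕ) (Fm : Fam) (h16 : 16 ≤ n0) (h5 : 5 ≤ sj k)
    (h2 : 2 * sj k ≤ su k) (hF : Bdd n0 (k + 1) Fm) :
    CardBd {t : Tst k | TstOK n0 k Fm t} (2 ^ (2 * Lam (3 * sM k) + aa 0 (3 * sM k) + 7)) := by
  have hZQ : Fintype.card (Z k × Q k) ≤ 2 ^ (sM k + (qb k + 1)) := by
    rw [Fintype.card_prod, pow_add]
    exact Nat.mul_le_mul (card_Z k) (card_Q k)
  let F : ℕ → Set (Tst k) := fun n => {t | n0 ≤ n ∧ k < KK n ∧ (∃ A ∈ Fm n, ∃ x, t.τ = A x) ∧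
    t.b.length = n ∧ t.ρ.length ≤ ss k n ∧ t.pre.length ≤ dd n ∧ t.post.length ≤ dd n}
  have hFn : ∀ n < 3 * sM k, CardBd (F n) (2 ^ (2 * Lam (3 * sM k) + aa 0 (3 * sM k) + 5)) := by
    intro n hn
    by_cases hc : n0 ≤ n ∧ k < KK n
    · obtain ⟨hn0, hk⟩ := hc
      have hfit : sM k + qb k + 3 ≤ 2 ^ Lam n := (fits k h5 h2).trans ((rel_iff k n).1 hk)
      have hX : Fintype.card (X (2 * n)) ≤ 2 ^ (2 * n) := (card_X _).le
      have h1 := card_image (fun p : (X (2 * n) → DT Str) × X (2 * n) => p.1 p.2)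
        (card_prod (⟨(hF n hn0).1, (hF n hn0).2.1⟩ : CardBd (Fm n) (2 ^ aa (k + 1) n))
          (card_univ hX))
      have h3 := card_image (fun p : DT Str × (Str × (List (Z k × Q k) ×
          (List (Q k) × List (Q k)))) => (⟨p.1, p.2.1, p.2.2.1, p.2.2.2.1, p.2.2.2.2⟩ : Tst k))
        (card_prod h1 (card_prod (card_str n) (card_prod (card_lists hZQ (ss k n))
          (card_prod (card_lists (card_Q k) (dd n)) (card_lists (card_Q k) (dd n))))))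
      have h4 := cdc_num (aa (k + 1) n) (Lam n) (sM k) (qb k) n hfit
        (by unfold aa; omega)
      refine card_mono h3 ?_ (h4.trans ?_)
      · rintro ⟨τ, b, ρ, pre, post⟩ ⟨-, -, ⟨A, hA, x, hx⟩, hb, hρ, hpre, hpost⟩
        exact ⟨(τ, (b, (ρ, (pre, post)))), ⟨⟨(A, x), ⟨hA, trivial⟩, hx.symm⟩, hb.le, hρ, hpre,
          hpost⟩, rfl⟩
      · apply Nat.pow_le_pow_right (by norm_num)
        have e1 := Lam_mono (show 16 ≤ n by omega) hn.le
        have e2 := aa_mono (k + 1) (show 16 ≤ n by omega) hn.le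
        omega
    · have e : F n = ∅ := by
        apply Set.eq_empty_of_forall_notMem
        rintro t ⟨h1, h2, -⟩
        exact hc ⟨h1, h2⟩
      rw [e]
      exact ⟨Set.finite_empty, by simp⟩
  refine card_mono (card_biUnion (3 * sM k) F _ hFn) ?_ ?_
  · rintro t ⟨n, h1, h2, h3, h4, h5, h6, h7, h8⟩
    exact ⟨n, h2, h1, h3, h4, h5, h6, h7, h8⟩
  · have e1 : sM k + 2 ≤ aa 0 (3 * sM k) := by unfold aa; omega
    have e2 : 3 * sM k ≤ 2 ^ (2 * Lam (3 * sM k) + aa 0 (3 * sM k) + 5) := by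
      have e3 : sM k < 2 ^ sM k := Nat.lt_two_pow_self
      have e4 : 2 ^ (sM k + 2) ≤ 2 ^ (2 * Lam (3 * sM k) + aa 0 (3 * sM k) + 5) :=
        Nat.pow_le_pow_right (by norm_num) (by omega)
      have e5 : 2 ^ (sM k + 2) = 4 * 2 ^ sM k := by rw [pow_add]; ring
      omega
    have e6 : 2 ^ (2 * Lam (3 * sM k) + aa 0 (3 * sM k) + 7) =
        4 * 2 ^ (2 * Lam (3 * sM k) + aa 0 (3 * sM k) + 5) := by
      rw [show 2 * Lam (3 * sM k) + aa 0 (3 * sM k) + 7 =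
        (2 * Lam (3 * sM k) + aa 0 (3 * sM k) + 5) + 2 from rfl, pow_add _ _ 2]; ring
    omega

/-- CDC -/
theorem card_cmp (n0 k : ℕ) (Fm : Fam) (h16 : 16 ≤ n0) (h5 : 5 ≤ sj k)
    (h2 : 2 * sj k ≤ su k) (hK : NumK n0 k) (hF : Bdd n0 (k + 1) Fm) (n : ℕ) :
    CardBd (Cmp n0 k Fm n) (2 ^ (n / 3)) := by
  by_cases hn : n = sn k
  · have h1 := card_image (fun p : List (Tst k) × ℕ =>
        (fun x : X (2 * n) => DT.tr (thrT p.1 p.2) (invTree (iM (sj k)) n x.1)))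
      (card_prod (card_list (card_tests n0 k Fm h16 h5 h2 hF) (lenk k))
        (card_nat (lenk k + 1)))
    refine card_mono h1 ?_ ?_
    · rintro A' ⟨-, l, hl, hl', θ, hθ, rfl⟩
      exact ⟨(l, θ), ⟨⟨hl, hl'⟩, hθ.trans (by simpa using hl)⟩, rfl⟩
    · rw [hn]
      refine le_trans ?_ hK.hcard
      have e1 : 2 ^ (2 * Lam (3 * sM k) + aa 0 (3 * sM k) + 7) + 1 ≤
          2 ^ (2 * Lam (3 * sM k) + aa 0 (3 * sM k) + 8) := by
        rw [pow_succ 2 (2 * Lam (3 * sM k) + aa 0 (3 * sM k) + 7)]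
        have := Nat.one_le_two_pow (n := 2 * Lam (3 * sM k) + aa 0 (3 * sM k) + 7)
        omega
      have e2 := Nat.mul_le_mul_right (lenk k) e1
      have e3 : (lenk k + 2) * 2 ^ (2 * Lam (3 * sM k) + aa 0 (3 * sM k) + 8) =
          2 ^ (2 * Lam (3 * sM k) + aa 0 (3 * sM k) + 8) * lenk k +
            2 * 2 ^ (2 * Lam (3 * sM k) + aa 0 (3 * sM k) + 8) := by ring
      rw [e3]
      omega
  · have e : Cmp n0 k Fm n = ∅ := by
      apply Set.eq_empty_of_forall_notMem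
      rintro A ⟨h, -⟩
      exact hn h
    rw [e]
    exact ⟨Set.finite_empty, by simp⟩

end Pool.Agent.TD
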