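import Pool.Agent.Lib_helper64.TD.Defs

set_option autoImplicit false

namespace Pool.Agent.TD

open Pool.Agent.CK Filter

theorem cpt_lim {α : Type} [Finite α] (f : ℕ → α) :
    ∃ a, ∀ᶠ N in (hyperfilter ℕ : Filter ℕ), f N = a := by
  obtain ⟨a, ha⟩ := ((hyperfilter ℕ).map f).eq_pure_of_finite
  refine ⟨a, ?_⟩
  have h : {b | b = a} ∈ (hyperfilter ℕ).map f := by
    rw [ha]
    exact Ultrafilter.mem_pure.2 rfl
  exact h

/-- CPT (ultrafilter `Filter.hyperfilter ℕ`; every coordinate has finitely many values) -/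
theorem compactness (Ss : ℕ → Sec) (Ts : ℕ → ℕ → Str → Str)
    (hb : ∀ N e z, (Ts N e z).length ≤ alen e z) :
    ∃ (S : Sec) (Tab : ℕ → Str → Str), (∀ e z, (Tab e z).length ≤ alen e z) ∧
      ∀ b, ∃ N, b ≤ N ∧ Agree b S (Ss N) Tab (Ts N) := by
  choose g hg using fun n => cpt_lim fun N => (Ss N).g n
  choose f hf using fun n => cpt_lim fun N => (Ss N).f n
  have hT : ∀ e z, ∃ q : Str, q.length ≤ alen e z ∧
      ∀ᶠ N in (hyperfilter ℕ : Filter ℕ), Ts N e z = q := by
    intro e z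
    haveI : Finite {q : Str // q.length ≤ alen e z} :=
      (List.finite_length_le Bool (alen e z)).to_subtype
    obtain ⟨a, ha⟩ := cpt_lim fun N => (⟨Ts N e z, hb N e z⟩ : {q : Str // q.length ≤ alen e z})
    refine ⟨a.1, a.2, ?_⟩
    filter_upwards [ha] with N hN
    exact congrArg Subtype.val hN
  choose Tab hTab1 hTab2 using hT
  refine ⟨⟨g, f⟩, Tab, hTab1, fun b => ?_⟩
  have h1 : ∀ᶠ N in (hyperfilter ℕ : Filter ℕ), b ≤ N := by
    have : (hyperfilter ℕ : Filter ℕ) ≤ atTop := by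
      rw [← Nat.cofinite_eq_atTop]
      exact hyperfilter_le_cofinite
    exact this (eventually_ge_atTop b)
  have h2 : ∀ᶠ N in (hyperfilter ℕ : Filter ℕ), ∀ n ∈ Set.Iic b,
      g n = (Ss N).g n ∧ f n = (Ss N).f n := by
    rw [eventually_all_finite (Set.finite_Iic b)]
    intro n _
    filter_upwards [hg n, hf n] with N h h'
    exact ⟨h.symm, h'.symm⟩
  have h3 : ∀ᶠ N in (hyperfilter ℕ : Filter ℕ), ∀ e ∈ Set.Iic b, ∀ z ∈ {z : Str | z.length ≤ b},
      Tab e z = Ts N e z := by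
    rw [eventually_all_finite (Set.finite_Iic b)]
    intro e _
    rw [eventually_all_finite (List.finite_length_le Bool b)]
    intro z _
    filter_upwards [hTab2 e z] with N h
    exact h.symm
  obtain ⟨N, hN1, hN2, hN3⟩ := (h1.and (h2.and h3)).exists
  exact ⟨N, hN1, fun n hn => hN2 n hn, fun e he z hz => hN3 e he z hz⟩

end Pool.Agent.TD
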