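import Pool.Agent.Lib_helper64.TD.Defs
import Pool.Agent.Lib_helper74.CKF.HYB
import Pool.Agent.Lib_helper74.CKF.HC
import Pool.Agent.Lib_helper74.CKF.MACH
import Pool.Agent.Lib_helper74.CKF.CARD
import Pool.Agent.Lib_helper74.CKF.ADDR
import Pool.Agent.Lib_helper64.TDF.CDA
/-!
# Block FIN (MP_675993_lc, TDP): the final family
-/

set_option autoImplicit false

namespace Pool.Agent.TD

open Pool.Agent.CK

/-- the final family is small -/
theorem fin_card (N n : ℕ) (h : NumN n) : CardBd (FinF N n) (2 ^ (n / 3 + 2)) := by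
  have hL1 : 1 ≤ Lam n := Nat.succ_le_succ (Nat.zero_le _)
  have e1 : 2 ^ (Lam n - 1) + 2 ^ (Lam n - 1) = 2 ^ Lam n := by
    obtain ⟨l, hl⟩ : ∃ l, Lam n = l + 1 := ⟨Lam n - 1, by omega⟩
    rw [hl, Nat.add_sub_cancel, pow_succ]
    ring
  have e2 : 2 ^ Lam n ≤ 2 ^ (n / 3) := Nat.pow_le_pow_right (by norm_num) h.hL
  have e3 : 2 ^ (n / 3 + 2) = 4 * 2 ^ (n / 3) := by
    rw [pow_add]
    ring
  have hb := h.hb
  have h16 := h.h16
  have hc := card_image (fun p : (ℕ × Str) × ℕ => fun x : X (2 * n) =>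
      (runTree p.2 ([(Encodable.decode p.1.1 : Option Cmd).getD Cmd.skip],
        init x.1 p.1.2)).map fun cf => cf.2 0)
    (card_prod (card_prod (card_nat n) (card_str (2 ^ (Lam n - 1))))
      (card_nat (2 ^ (Lam n - 1))))
  refine card_mono hc ?_ ?_
  · rintro A ⟨_, c, hcn, w, hw, t, ht, rfl⟩
    refine ⟨((Encodable.encode c, w), t), ⟨⟨hcn, hw⟩, ht⟩, ?_⟩
    funext x
    simp only [Encodable.encodek, Option.getD_some]
  · omega

/-- FIN -/
theorem bdd_fin (n0 N : ℕ) (hN : ∀ n, n0 ≤ n → NumN n) (top : ℕ) : Bdd n0 top (FinF N) := by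
  intro n hn
  have h := hN n hn
  have hL1 : 1 ≤ Lam n := Nat.succ_le_succ (Nat.zero_le _)
  have e1 : 2 ^ (Lam n - 1) + 2 ^ (Lam n - 1) = 2 ^ Lam n := by
    obtain ⟨l, hl⟩ : ∃ l, Lam n = l + 1 := ⟨Lam n - 1, by omega⟩
    rw [hl, Nat.add_sub_cancel, pow_succ]
    ring
  have hc : CardBd (FinF N n) (2 ^ aa top n) :=
    card_mono (fin_card N n h) (Set.Subset.refl _)
      (Nat.pow_le_pow_right (by norm_num) (Nat.le_add_right _ _))
  refine ⟨hc.1, hc.2, ?_⟩
  rintro A ⟨_, c, hcn, w, hw, t, ht, rfl⟩ x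
  have hb := h.hb
  constructor
  · show ((runTree t ([c], init x.1 w)).map fun cf => cf.2 0).depth ≤ 2 ^ Lam n
    rw [DT.depth_map]
    exact (mach_depth_runTree _ _).trans (by omega)
  · show ((runTree t ([c], init x.1 w)).map fun cf => cf.2 0).AllQ fun w => w.length ≤ 2 ^ Lam n
    apply mach_allQ_map
    refine (mach_allQ_runTree t _ (2 ^ (Lam n - 1)) (2 ^ Lam n)
      (mach_init_len x.1 w _ (by rw [x.2]; exact hb) hw) (by omega)).mono ?_
    intro w hw
    exact le_of_lt hw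

/-- FIN -/
theorem cl_empty (t0 : ℕ → ℕ) (n0 N top : ℕ) :
    ∃ Nh, ∀ n, Nh < n → Cl t0 n0 (FinF N) top top n = ∅ := by
  have key : ∀ r : ℕ, ∃ Nh, ∀ n, Nh < n → Cl t0 n0 (FinF N) top r n = ∅ := by
    intro r
    induction r with
    | zero =>
      refine ⟨N, fun n hn => ?_⟩
      rw [Set.eq_empty_iff_forall_notMem]
      rintro A ⟨h1, _⟩
      omega
    | succ r ih =>
      obtain ⟨Nh, hNh⟩ := ih
      refine ⟨max Nh (sn (top - (r + 1))), fun n hn => ?_⟩
      have h1 : Nh < n := lt_of_le_of_lt (le_max_left _ _) hn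
      have h2 : sn (top - (r + 1)) < n := lt_of_le_of_lt (le_max_right _ _) hn
      have h3 := hNh n h1
      show Next t0 n0 (top - (r + 1)) (Cl t0 n0 (FinF N) top r) n = ∅
      have hsim : Sim (top - (r + 1)) n (Cl t0 n0 (FinF N) top r n) = ∅ := by
        rw [h3, Set.eq_empty_iff_forall_notMem]
        rintro A ⟨B, hB, _⟩
        exact hB
      have hcmp : Cmp n0 (top - (r + 1)) (Cl t0 n0 (FinF N) top r) n = ∅ := by
        rw [Set.eq_empty_iff_forall_notMem]
        rintro A ⟨h4, _⟩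
        omega
      unfold Next
      split_ifs
      · rw [hsim, hcmp, Set.empty_union]
      · rw [h3, hcmp, Set.empty_union]
      · exact h3
  exact key top

end Pool.Agent.TD
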