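import Pool.Agent.Lib_helper64.TDF.Step
import Pool.Agent.Lib_helper64.TDF.STB
import Pool.Agent.Lib_helper64.TDF.CDB
import Pool.Agent.Lib_helper64.TDF.CDC
import Pool.Agent.Lib_helper64.TDF.CDD
import Pool.Agent.Lib_helper64.TDF.FIN
import Pool.Agent.Lib_helper64.TDF.AGR
import Pool.Agent.Lib_helper64.TDF.NU1
import Pool.Agent.Lib_helper64.TDF.NU3
import Pool.Agent.Lib_helper64.TDF.CPT

/-!
# The stages one after the other
-/

set_option autoImplicit false

namespace Pool.Agent.TD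

open Pool.Agent.CK

theorem sim_bounds {k n : ℕ} {Fm : Set (X (2 * n) → DT Str)}
    (hF : ∀ A ∈ Fm, ∀ x, (A x).depth ≤ dd n ∧ (A x).AllQ fun w => w.length ≤ dd n) :
    ∀ A ∈ Sim k n Fm, ∀ x, (A x).depth ≤ dd n ∧ (A x).AllQ fun w => w.length ≤ dd n := by
  rintro A' ⟨A, hA, ρ, -, r, -, rfl⟩ x
  exact ⟨(depth_simB _ _ _ _ _ _).trans (hF A hA x).1, allQ_simB _ _ _ _ _ _ _ (hF A hA x).2⟩

theorem bdd_next {t0 : ℕ → ℕ} {n0 k : ℕ} {Fm : Fam} (h16 : 16 ≤ n0)
    (hK : Act t0 k → NumK n0 k) (hF : Bdd n0 (k + 1) Fm) : Bdd n0 k (Next t0 n0 k Fm) := by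
  intro n hn
  obtain ⟨h1, h2, h3⟩ := hF n hn
  by_cases hact : Act t0 k
  · have hnum := hK hact
    have h5 : 5 ≤ sj k := hact.1
    have h2' : 2 * sj k ≤ su k := hact.2.1
    have hcmp := card_cmp n0 k Fm h16 h5 h2' hnum hF n
    have hdep := cmp_depth n0 k Fm h16 hnum hF n
    by_cases hk : k < KK n
    · have hsim := card_simF k n (Fm n) h5 h2' hk ⟨h1, h2⟩
      have e : Next t0 n0 k Fm n = Sim k n (Fm n) ∪ Cmp n0 k Fm n := by
        unfold Next; rw [if_pos hact, if_pos hk]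
      rw [e]
      have hle : n / 3 ≤ aa (k + 1) n + 2 * Lam n + 4 := by unfold aa; omega
      have hu := card_union hsim (card_mono hcmp le_rfl
        (Nat.pow_le_pow_right (by norm_num) hle))
      have hb : CardBd (Sim k n (Fm n) ∪ Cmp n0 k Fm n) (2 ^ aa k n) := by
        refine card_mono hu le_rfl ?_
        have h4 : 2 ^ (aa (k + 1) n + 2 * Lam n + 4) + 1 ≤
            2 ^ (aa (k + 1) n + 2 * Lam n + 4 + 1) := by
          rw [pow_succ 2 (aa (k + 1) n + 2 * Lam n + 4)]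
          have := Nat.one_le_two_pow (n := aa (k + 1) n + 2 * Lam n + 4)
          omega
        refine h4.trans (Nat.pow_le_pow_right (by norm_num) ?_)
        rw [aa_step hk]; omega
      refine ⟨hb.1, hb.2, ?_⟩
      rintro A (hA | hA) x
      · exact sim_bounds h3 A hA x
      · exact hdep A hA x
    · have hk' : KK n ≤ k := not_lt.1 hk
      have e : Next t0 n0 k Fm n = Fm n ∪ Cmp n0 k Fm n := by
        unfold Next; rw [if_pos hact, if_neg hk]
      have hemp : Cmp n0 k Fm n = ∅ := by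
        apply Set.eq_empty_of_forall_notMem
        rintro A ⟨hsn, -⟩
        have := hnum.hK
        rw [← hsn] at this
        exact hk this
      rw [e, hemp, Set.union_empty]
      exact ⟨h1, by rw [aa_irrel hk']; exact h2, h3⟩
  · have e : Next t0 n0 k Fm n = Fm n := by unfold Next; rw [if_neg hact]
    rw [e]
    refine ⟨h1, h2.trans ?_, h3⟩
    exact Nat.pow_le_pow_right (by norm_num) (Nat.pow_le_pow_right (by norm_num) (aa_anti k n))

theorem bdd_cl {t0 : ℕ → ℕ} {n0 : ℕ} {fin : Fam} {top : ℕ} (h16 : 16 ≤ n0)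
    (hK : ∀ k, Act t0 k → NumK n0 k) (hF : Bdd n0 top fin) :
    ∀ r ≤ top, Bdd n0 (top - r) (Cl t0 n0 fin top r) := by
  intro r
  induction r with
  | zero => intro _; exact hF
  | succ r ih =>
    intro hr
    have h := ih (by omega)
    have e : top - r = (top - (r + 1)) + 1 := by omega
    rw [e] at h
    exact bdd_next h16 (hK _) h

/-- All stages. -/
theorem iterate {t0 : ℕ → ℕ} {n0 : ℕ} {fin : Fam} {top : ℕ} (h16 : 16 ≤ n0)
    (hK : ∀ k, Act t0 k → NumK n0 k) (hF : Bdd n0 top fin) (S : Sec)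
    (h0 : Def n0 0 S (orc S fun _ _ => []) (Cl t0 n0 fin top top)) :
    ∀ k ≤ top, ∃ Tab : ℕ → Str → Str, Def n0 k S (orc S Tab) (Cl t0 n0 fin top (top - k)) ∧
      (∀ k' < k, Act t0 k' → Goal S k' (orc S Tab) Tab) ∧
      ∀ e z, (Tab e z).length ≤ alen e z := by
  intro k
  induction k with
  | zero =>
    intro _
    exact ⟨fun _ _ => [], h0, fun k' hk' => absurd hk' (Nat.not_lt_zero _),
      fun e z => Nat.zero_le _⟩
  | succ k ih =>
    intro hk
    obtain ⟨Tab, hdef, hgoal, hlen⟩ := ih (by omega)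
    have e : top - k = (top - (k + 1)) + 1 := by omega
    have hcl : Cl t0 n0 fin top (top - k) =
        Next t0 n0 k (Cl t0 n0 fin top (top - (k + 1))) := by
      rw [e]
      have e2 : top - (top - (k + 1) + 1) = k := by omega
      show Next t0 n0 (top - (top - (k + 1) + 1)) _ = _
      rw [e2]
    rw [hcl] at hdef
    by_cases hact : Act t0 k
    · have h5 : 5 ≤ sj k := hact.1
      have h2 : 2 * sj k ≤ su k := hact.2.1
      have hB : Bdd n0 (k + 1) (Cl t0 n0 fin top (top - (k + 1))) := by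
        have := bdd_cl h16 hK hF (top - (k + 1)) (by omega)
        have e3 : top - (top - (k + 1)) = k + 1 := by omega
        rwa [e3] at this
      obtain ⟨T, hT1, hT2⟩ := step_stage h16 hact (hK k hact) hB hdef
      refine ⟨upd Tab k T, hT1, ?_, ?_⟩
      · intro k' hk' hact'
        rcases Nat.lt_succ_iff_lt_or_eq.1 hk' with h | h
        · refine goal_congr hact'.1 hact'.2.1 (O := orc S Tab) (Tab := Tab) ?_ ?_
            (hgoal k' h hact')
          · intro w hw
            exact (orc_low S Tab k T h5 h2 w (hw.trans_le (sD_mono h.le))).symm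
          · intro z hz
            exact (upd_other Tab k k' T h.ne h2 hact'.2.1 z hz).symm
        · subst h
          exact hT2
      · intro e z
        rcases upd_length Tab k T e z with h | ⟨rfl, hz, h⟩
        · rw [h]; exact hlen e z
        · exact h.trans (qb_le_alen k h5 h2 z hz)
    · have e4 : Next t0 n0 k (Cl t0 n0 fin top (top - (k + 1))) =
          Cl t0 n0 fin top (top - (k + 1)) := by
        funext n
        unfold Next
        rw [if_neg hact]
      rw [e4] at hdef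
      refine ⟨Tab, ?_, ?_, hlen⟩
      · intro n hn A hA
        exact (Nat.mul_le_mul_right _ (Del_mono k n)).trans_lt (hdef n hn A hA)
      · intro k' hk' hact'
        rcases Nat.lt_succ_iff_lt_or_eq.1 hk' with h | h
        · exact hgoal k' h hact'
        · subst h
          exact absurd hact' hact

/-- The construction up to a horizon `N`. -/
theorem horizon
    (BASE : ∀ (n0 Nh : ℕ), (∀ n, n0 ≤ n → NumN n) → ∀ Fm : Fam, Bdd n0 0 Fm →
      (∀ n, Nh < n → Fm n = ∅) → ∃ S : Sec, Def n0 0 S (orc S fun _ _ => []) Fm)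
    {t0 : ℕ → ℕ} {n0 : ℕ} (hN : ∀ n, n0 ≤ n → NumN n)
    (hK : ∀ k, Act t0 k → NumK n0 k) (N : ℕ) :
    ∃ (S : Sec) (Tab : ℕ → Str → Str), (∀ e z, (Tab e z).length ≤ alen e z) ∧
      (∀ k < N, Act t0 k → Goal S k (orc S Tab) Tab) ∧
      ∀ n, n0 ≤ n → n ≤ N → SecAt S Tab n := by
  have h16 : 16 ≤ n0 := (hN n0 le_rfl).h16
  have hfin : Bdd n0 N (FinF N) := bdd_fin n0 N hN N
  obtain ⟨Nh, hNh⟩ := cl_empty t0 n0 N N
  have hB0 : Bdd n0 0 (Cl t0 n0 (FinF N) N N) := by
    have := bdd_cl h16 hK hfin N le_rfl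
    rwa [Nat.sub_self] at this
  obtain ⟨S, hS⟩ := BASE n0 Nh hN _ hB0 hNh
  obtain ⟨Tab, h1, h2, h3⟩ := iterate h16 hK hfin S hS N le_rfl
  refine ⟨S, Tab, h3, h2, ?_⟩
  intro n hn hnN A hA
  rw [Nat.sub_self] at h1
  obtain ⟨-, c, hc, w, hw, t, ht, rfl⟩ := hA
  refine lt_of_le_of_lt (Nat.mul_le_mul_right _ ?_) (h1 n hn _ ⟨hnN, c, hc, w, hw, t, ht, rfl⟩)
  exact Nat.pow_le_pow_right (by norm_num) (Nat.le_add_right _ _)

/-- The limit. -/
theorem goals_all
    (BASE : ∀ (n0 Nh : ℕ), (∀ n, n0 ≤ n → NumN n) → ∀ Fm : Fam, Bdd n0 0 Fm →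
      (∀ n, Nh < n → Fm n = ∅) → ∃ S : Sec, Def n0 0 S (orc S fun _ _ => []) Fm) :
    ∃ (t0 : ℕ → ℕ) (n0 : ℕ) (S : Sec) (Tab : ℕ → Str → Str),
      (∀ e z, (Tab e z).length ≤ alen e z) ∧
      (∀ k, Act t0 k → Goal S k (orc S Tab) Tab) ∧ ∀ n, n0 ≤ n → SecAt S Tab n := by
  obtain ⟨n0, hN⟩ := exists_n0
  obtain ⟨t0, hK⟩ := exists_t0 n0
  have hor := horizon BASE hN hK
  choose Ss Ts h1 h2 h3 using hor
  obtain ⟨S, Tab, hlen, hag⟩ := compactness Ss Ts h1
  refine ⟨t0, n0, S, Tab, hlen, ?_, ?_⟩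
  · intro k hact
    obtain ⟨b, hb⟩ := goal_agree k hact.1 hact.2.1
    obtain ⟨N, hbN, hN'⟩ := hag (max b (k + 1))
    have hag' : Agree b S (Ss N) Tab (Ts N) := by
      refine ⟨fun n hn => hN'.1 n (hn.trans (le_max_left _ _)), fun e he z hz =>
        hN'.2 e (he.trans (le_max_left _ _)) z (hz.trans (le_max_left _ _))⟩
    exact hb _ _ _ _ hag' (h2 N k (by have := le_max_right b (k + 1); omega) hact)
  · intro n hn
    obtain ⟨b, hb⟩ := sec_agree n
    obtain ⟨N, hbN, hN'⟩ := hag (max b n)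
    have hag' : Agree b S (Ss N) Tab (Ts N) := by
      refine ⟨fun n hn => hN'.1 n (hn.trans (le_max_left _ _)), fun e he z hz =>
        hN'.2 e (he.trans (le_max_left _ _)) z (hz.trans (le_max_left _ _))⟩
    exact hb _ _ _ _ hag' (h3 N n hn (by have := le_max_right b n; omega))

end Pool.Agent.TD
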