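import Pool.Agent.Lib_helper64.TD.Defs
import Pool.Agent.Lib_helper74.CKF.HYB
import Pool.Agent.Lib_helper74.CKF.HC
import Pool.Agent.Lib_helper74.CKF.MACH
import Pool.Agent.Lib_helper74.CKF.CARD
import Pool.Agent.Lib_helper74.CKF.ADDR
/-!
# Block AVG: averaging
-/

set_option autoImplicit false

namespace Pool.Agent.TD

open Pool.Agent.CK

theorem avg_exists {Qt : Type} [Fintype Qt] {ν : Qt → ℝ} (h0 : ∀ q, 0 ≤ ν q)
    (h1 : ∑ q, ν q = 1) (d : ℕ) (F : List Qt → ℝ) :
    ∃ r : List Qt, r.length = d ∧ exL ν d F ≤ F r := by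
  induction d generalizing F with
  | zero => exact ⟨[], rfl, le_rfl⟩
  | succ d ih =>
    have key : ∃ q, exL ν (d + 1) F ≤ exL ν d (fun l => F (q :: l)) := by
      by_contra hno
      push Not at hno
      obtain ⟨q0, hq0⟩ : ∃ q, 0 < ν q := by
        by_contra hn
        push Not at hn
        have h2 : ∑ q, ν q ≤ 0 := Finset.sum_nonpos fun q _ => hn q
        linarith
      have h2 : ∑ q, ν q * exL ν d (fun l => F (q :: l)) < ∑ q, ν q * exL ν (d + 1) F := by
        apply Finset.sum_lt_sum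
        · intro q _
          exact mul_le_mul_of_nonneg_left (hno q).le (h0 q)
        · exact ⟨q0, Finset.mem_univ _, mul_lt_mul_of_pos_left (hno q0) hq0⟩
      rw [← Finset.sum_mul, h1, one_mul] at h2
      exact lt_irrefl _ h2
    obtain ⟨q, hq⟩ := key
    obtain ⟨r, hr, hr2⟩ := ih (fun l => F (q :: l))
    exact ⟨q :: r, by simp [hr], hq.trans hr2⟩

section

variable {Xf Zt Qt ι : Type} [Fintype Xf] [Fintype Zt] [DecidableEq Zt] [Fintype Qt]
  [DecidableEq Qt]

/-- AVG: from `hybrid` (with `β = true`) -/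
theorem averaging (ν : Bool → Qt → ℝ) (hν : ∀ b, (∀ q, 0 ≤ ν b q) ∧ ∑ q, ν b q = 1)
    (κ : Zt → Bool) (ps : Str → Option (Zt × ι)) (rd : Qt → ι → Bool) (O : Lang)
    (B : Xf → DT Bool) (d : ℕ) (hd : ∀ x, (B x).depth ≤ d) (ε : ℝ) (hε : 0 ≤ ε)
    (ρ : List (Zt × Qt))
    (hD : ∀ x, ∀ pre post : List Qt, pre.length ≤ d → post.length ≤ d →
      ∑ q, ν true q * ind ((sim ps rd (B x) ρ (pre ++ q :: post)).eval O) ≤
        ∑ q, ν false q * ind ((sim ps rd (B x) ρ (pre ++ q :: post)).eval O) + ε)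
    (W : ℝ) (hW : W ≤ Pr (fun z => ν (κ z)) ρ
      (fun T => ∑ x, ind ((B x).eval (patch ps rd O T)))) :
    ∃ r : List Qt, r.length = d ∧
      W - Fintype.card Xf * (d * ε) ≤ ∑ x, ind ((sim ps rd (B x) ρ r).eval O) := by
  have hb : ∀ b : Bool, ind (b == true) = ind b := by
    intro b
    cases b <;> rfl
  have h1 : ∀ x, Pr (fun z => ν (κ z)) ρ (fun T => ind ((B x).eval (patch ps rd O T))) ≤
      exL (ν false) d (fun r => ind ((sim ps rd (B x) ρ r).eval O)) + d * ε := by
    intro x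
    have h := hybrid ν hν κ ps rd O true ε hε (B x) ρ d (hd x) (by
      intro pre post h1 h2
      simp only [hb]
      exact hD x pre post h1 h2)
    simpa only [hb] using h
  obtain ⟨r, hr, hr2⟩ := avg_exists (hν false).1 (hν false).2 d
    (fun r => ∑ x, ind ((sim ps rd (B x) ρ r).eval O))
  refine ⟨r, hr, le_trans ?_ hr2⟩
  have h2 : exL (ν false) d (fun r => ∑ x, ind ((sim ps rd (B x) ρ r).eval O)) =
      ∑ x, exL (ν false) d (fun r => ind ((sim ps rd (B x) ρ r).eval O)) := by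
    have h := hyb_exL_sum (ν false) d Finset.univ (fun _ : Xf => (1 : ℝ))
      (fun x r => ind ((sim ps rd (B x) ρ r).eval O))
    simpa only [one_mul] using h
  have h3 := pm_sum Finset.univ (fun z => ν (κ z)) ρ
    (fun (x : Xf) T => ind ((B x).eval (patch ps rd O T)))
  rw [h3] at hW
  have h4 := Finset.sum_le_sum fun x (_ : x ∈ (Finset.univ : Finset Xf)) => h1 x
  rw [Finset.sum_add_distrib, Finset.sum_const, nsmul_eq_mul, Finset.card_univ] at h4
  rw [h2]
  linarith

end

end Pool.Agent.TD
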