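import Pool.Agent.Lib_helper64.TD.Defs
import Pool.Agent.Lib_helper74.CKF.HYB
import Pool.Agent.Lib_helper74.CKF.HC
import Pool.Agent.Lib_helper74.CKF.MACH
import Pool.Agent.Lib_helper74.CKF.CARD
import Pool.Agent.Lib_helper74.CKF.ADDR
import Pool.Agent.Lib_helper74.CKF.ENUM
import Pool.Agent.Lib_helper74.CKF.PROG2
import Pool.Agent.Lib_helper64.TDF.STA
/-!
# Block COL: from the goals to the collapse
-/

set_option autoImplicit false

namespace Pool.Agent.TD

open Pool.Agent.CK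

theorem col_orc (S : Sec) (Tab : ℕ → Str → Str) (e : ℕ) (he : 6 ≤ e) (z : Str) (b : ℕ)
    (c : Bool) : orc S Tab (taddr e z b c) = bit (Tab e z) (b, c) := by
  unfold orc
  rw [tdec_taddr]
  show bit (val S Tab e z) (b, c) = _
  unfold val
  rw [if_neg (by omega), if_neg (by omega), if_neg (by omega)]

theorem col_read (S : Sec) (Tab : ℕ → Str → Str) (hlen : ∀ e z, (Tab e z).length ≤ alen e z)
    (e : ℕ) (he : 6 ≤ e) : InFP (orc S Tab) (Tab e) :=
  inFP_read (orc S Tab) e (Tab e) (hlen e) (fun z b c => col_orc S Tab e he z b c)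

/-- the stage of index `j` and group `t` -/
def col_k (t j : ℕ) : ℕ := (t + 2 * j) ^ 2 + j

theorem col_act (t0 : ℕ → ℕ) (t j : ℕ) (hj : 5 ≤ j) (ht : t0 j ≤ t) : Act t0 (col_k t j) := by
  obtain ⟨h1, h2, h3⟩ := stage_of t j
  unfold Act col_k
  rw [h1, h2, h3]
  exact ⟨hj, by omega, ht⟩

theorem col_group (z : Str) (m : ℕ) (hm : 2 ^ 2 ^ m ≤ z.length) :
    ∃ t, m ≤ t ∧ 2 ^ 2 ^ t ≤ z.length + 2 ∧ z.length + 2 < 2 ^ 2 ^ (t + 1) := by
  have h0 : Nat.log 2 (z.length + 2) ≠ 0 := by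
    have : 1 ≤ Nat.log 2 (z.length + 2) := Nat.le_log_of_pow_le (by norm_num) (by omega)
    omega
  refine ⟨Nat.log 2 (Nat.log 2 (z.length + 2)), ?_, ?_, ?_⟩
  · apply Nat.le_log_of_pow_le (by norm_num)
    apply Nat.le_log_of_pow_le (by norm_num)
    omega
  · refine le_trans (Nat.pow_le_pow_right (by norm_num) (Nat.pow_log_le_self 2 h0)) ?_
    exact Nat.pow_log_le_self 2 (by omega)
  · refine lt_of_lt_of_le (Nat.lt_pow_succ_log_self (b := 2) (by norm_num) _) ?_
    exact Nat.pow_le_pow_right (by norm_num)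
      (Nat.succ_le_of_lt (Nat.lt_pow_succ_log_self (b := 2) (by norm_num) _))

/-- COL (`PAT` is the finite patch of helper40) -/
theorem collapse_of_goals
    (PAT : ∀ (O : Lang) (f g : Str → Str) (L : ℕ), InFP O f → (∀ z, L ≤ z.length → g z = f z) →
      InFP O g)
    {S : Sec} {Tab : ℕ → Str → Str} (t0 : ℕ → ℕ)
    (hlen : ∀ e z, (Tab e z).length ≤ alen e z)
    (hgoal : ∀ k, Act t0 k → Goal S k (orc S Tab) Tab) :
    ∀ C, InNP (orc S Tab) C → TuringReducible (orc S Tab) (VV S) C →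
      ManyOneComplete (orc S Tab) C := by
  classical
  intro C hC hT
  refine ⟨hC, fun A hA => ?_⟩
  obtain ⟨i, hi⟩ := exists_NL hC
  obtain ⟨l, hl⟩ := exists_NL hA
  obtain ⟨j, hj⟩ := exists_PL hT
  obtain ⟨e, he1, he2, he3, -, he5⟩ := exists_index i j l 0
  have h5 : 5 ≤ e := by
    have h := he5.1
    have a1 : 3 * 3 ≤ (2 * iN e + 3) * (iC e + 3) := Nat.mul_le_mul (by omega) (by omega)
    have a2 : 3 * 3 * 3 ≤ (2 * iN e + 3) * (iC e + 3) * (iM e + 3) :=
      Nat.mul_le_mul a1 (by omega)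
    omega
  have h32 : 6 ≤ 2 ^ e := by
    have : 2 ^ 5 ≤ 2 ^ e := Nat.pow_le_pow_right (by norm_num) h5
    omega
  have hG : ∀ t, t0 e ≤ t →
      (∀ z ∈ ZSet (col_k t e), C (Tab (2 ^ e) z) = A z) ∧ ∃ q0 q1 : Str, C q0 = false ∧
        C q1 = true := by
    intro t ht
    have hg := hgoal _ (col_act t0 t e h5 ht)
    obtain ⟨s1, s2, s3⟩ := stage_of t e
    have s2' : sj (col_k t e) = e := s2
    have hcor : Corr S (col_k t e) (orc S Tab) := by
      intro x i' _
      rw [s2', he1, he2, hi, hj]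
    obtain ⟨g1, q0, q1, -, -, g4, g5⟩ := hg.2 hcor
    unfold se at g1
    rw [s2', he1, he3, hi, hl] at g1
    rw [s2', he1, hi] at g4 g5
    exact ⟨g1, q0, q1, g4, g5⟩
  obtain ⟨-, q0, q1, hq0, hq1⟩ := hG (t0 e) le_rfl
  refine ⟨fun z => if 2 ^ 2 ^ t0 e ≤ z.length then Tab (2 ^ e) z
    else if A z = true then q1 else q0, ?_, ?_⟩
  · refine PAT (orc S Tab) (Tab (2 ^ e)) _ (2 ^ 2 ^ t0 e) (col_read S Tab hlen _ h32) ?_
    intro z hz
    show (if _ then _ else _) = _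
    rw [if_pos hz]
  · intro z
    show A z = C (if _ then _ else _)
    by_cases hz : 2 ^ 2 ^ t0 e ≤ z.length
    · rw [if_pos hz]
      obtain ⟨t, ht1, ht2, ht3⟩ := col_group z (t0 e) hz
      have s3 : st (col_k t e) = t := (stage_of t e).2.2
      refine ((hG t ht1).1 z ?_).symm
      unfold ZSet sm sM
      rw [s3]
      exact ⟨ht2, ht3⟩
    · rw [if_neg hz]
      by_cases ha : A z = true
      · rw [if_pos ha, ha, hq1]
      · rw [if_neg ha, hq0]
        simpa using ha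

end Pool.Agent.TD
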