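import Pool.Agent.Lib_helper64.TD.Defs
import Pool.Agent.Lib_helper74.CKF.HYB
import Pool.Agent.Lib_helper74.CKF.HC
import Pool.Agent.Lib_helper74.CKF.MACH
import Pool.Agent.Lib_helper74.CKF.CARD
import Pool.Agent.Lib_helper74.CKF.ADDR
/-!
# Block DBL: doubling of the probability
-/

set_option autoImplicit false

namespace Pool.Agent.TD

open Pool.Agent.CK

section

variable {Xf Zt Qt ι : Type} [Fintype Xf] [Fintype Zt] [DecidableEq Zt] [Fintype Qt]
  [DecidableEq Qt]

theorem dbl_ind_nonneg (b : Bool) : 0 ≤ ind b := by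
  unfold ind
  split_ifs <;> norm_num

theorem dbl_ind_le_one (b : Bool) : ind b ≤ 1 := by
  unfold ind
  split_ifs <;> norm_num

theorem dbl_Pr_nonneg {μ : Zt → Qt → ℝ} (hμ : IsPD μ) (ρ : List (Zt × Qt)) {F : (Zt → Qt) → ℝ}
    (h : ∀ T, 0 ≤ F T) : 0 ≤ Pr μ ρ F := by
  unfold Pr
  exact Finset.sum_nonneg fun T _ => mul_nonneg (pm_prod_nonneg hμ ρ T) (h T)

theorem dbl_step {μ : Zt → Qt → ℝ} (hμ : IsPD μ) (ps : Str → Option (Zt × ι))
    (rd : Qt → ι → Bool) (O : Lang) (B : Xf → DT Bool) (d : ℕ) (hd : ∀ x, (B x).depth ≤ d)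
    (W : ℝ) (E : (Zt → Qt) → Bool)
    (hE : ∀ T, E T = true → W ≤ ∑ x, ind ((B x).eval (patch ps rd O T)))
    (K : ℝ) (hK : 0 < K) (m : ℕ) (ρ : List (Zt × Qt)) (hρ : ρ.length ≤ m)
    (hp : K ≤ Pr μ ρ (fun T => ind (E T)))
    (hW : Pr μ ρ (fun T => ∑ x, ind ((B x).eval (patch ps rd O T))) < W / 2) :
    ∃ ρ' : List (Zt × Qt), ρ'.length ≤ m + d ∧ 2 * K ≤ Pr μ ρ' (fun T => ind (E T)) := by
  by_contra hcon
  push Not at hcon
  have hS0 : 0 ≤ Pr μ ρ (fun T => ∑ x, ind ((B x).eval (patch ps rd O T))) :=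
    dbl_Pr_nonneg hμ ρ fun T => Finset.sum_nonneg fun x _ => dbl_ind_nonneg _
  have hW0 : 0 < W := by linarith
  have htree : ∀ x, Pr μ ρ (fun T => ind (E T && (B x).eval (patch ps rd O T))) ≤
      (2 * K) * Pr μ ρ (fun T => ind ((B x).eval (patch ps rd O T))) := by
    intro x
    refine tree_lemma hμ ps rd O E (fun β _ => β) (2 * K) (m + d) ?_ (B x) ρ ?_
    · intro β ρ' hρ'
      cases β with
      | false =>
        have h1 : Pr μ ρ' (fun T => ind (E T && false)) = 0 := by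
          unfold Pr
          refine Finset.sum_eq_zero fun T _ => ?_
          simp [ind]
        have h2 : Pr μ ρ' (fun _ => ind false) = 0 := by
          unfold Pr
          refine Finset.sum_eq_zero fun T _ => ?_
          simp [ind]
        rw [h1, h2, mul_zero]
      | true =>
        have h1 : Pr μ ρ' (fun T => ind (E T && true)) = Pr μ ρ' (fun T => ind (E T)) :=
          Pr_congr μ ρ' fun T _ => by rw [Bool.and_true]
        have h2 : Pr μ ρ' (fun _ : Zt → Qt => ind true) = 1 := by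
          have : (fun _ : Zt → Qt => ind true) = fun _ => 1 := by
            funext T
            simp [ind]
          rw [this]
          exact Pr_one hμ ρ'
        rw [h1, h2, mul_one]
        exact (hcon ρ' hρ').le
    · have := hd x
      omega
  have hsum : Pr μ ρ (fun T => ∑ x, ind (E T && (B x).eval (patch ps rd O T))) ≤
      (2 * K) * Pr μ ρ (fun T => ∑ x, ind ((B x).eval (patch ps rd O T))) := by
    rw [pm_sum, pm_sum, Finset.mul_sum]
    exact Finset.sum_le_sum fun x _ => htree x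
  have hlow : W * Pr μ ρ (fun T => ind (E T)) ≤
      Pr μ ρ (fun T => ∑ x, ind (E T && (B x).eval (patch ps rd O T))) := by
    rw [← Pr_mul]
    refine Pr_mono hμ ρ fun T => ?_
    cases hT : E T with
    | false =>
      have h0 : ind false = 0 := by simp [ind]
      rw [h0, mul_zero]
      exact Finset.sum_nonneg fun x _ => dbl_ind_nonneg _
    | true =>
      have h1 : ind true = 1 := by simp [ind]
      rw [h1, mul_one]
      simp only [Bool.true_and]
      exact hE T hT
  nlinarith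

/-- DBL: `E` is an event of probability `≥ 2^(-b)` in which many of the trees `B x` have the
value `true`.  Then this is true on the average after the revelation of few entries. -/
theorem doubling {μ : Zt → Qt → ℝ} (hμ : IsPD μ) (ps : Str → Option (Zt × ι))
    (rd : Qt → ι → Bool) (O : Lang) (B : Xf → DT Bool) (d : ℕ) (hd : ∀ x, (B x).depth ≤ d)
    (W : ℝ) (E : (Zt → Qt) → Bool)
    (hE : ∀ T, E T = true → W ≤ ∑ x, ind ((B x).eval (patch ps rd O T)))
    (b : ℕ) (hb : (1 / 2 : ℝ) ^ b ≤ Pr μ [] (fun T => ind (E T))) :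
    ∃ ρ : List (Zt × Qt), ρ.length ≤ (b + 1) * d ∧
      W / 2 ≤ Pr μ ρ (fun T => ∑ x, ind ((B x).eval (patch ps rd O T))) := by
  have key : ∀ i : ℕ, (∃ ρ : List (Zt × Qt), ρ.length ≤ i * d ∧
      W / 2 ≤ Pr μ ρ (fun T => ∑ x, ind ((B x).eval (patch ps rd O T)))) ∨
      (∃ ρ : List (Zt × Qt), ρ.length ≤ i * d ∧
        2 ^ i * (1 / 2 : ℝ) ^ b ≤ Pr μ ρ (fun T => ind (E T))) := by
    intro i
    induction i with
    | zero =>
      right
      exact ⟨[], by simp, by simpa using hb⟩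
    | succ i ih =>
      rcases ih with ⟨ρ, h1, h2⟩ | ⟨ρ, h1, h2⟩
      · left
        exact ⟨ρ, h1.trans (Nat.mul_le_mul_right _ (Nat.le_succ _)), h2⟩
      · by_cases h3 : W / 2 ≤ Pr μ ρ (fun T => ∑ x, ind ((B x).eval (patch ps rd O T)))
        · left
          exact ⟨ρ, h1.trans (Nat.mul_le_mul_right _ (Nat.le_succ _)), h3⟩
        · right
          obtain ⟨ρ', h4, h5⟩ := dbl_step hμ ps rd O B d hd W E hE (2 ^ i * (1 / 2 : ℝ) ^ b)
            (by positivity) (i * d) ρ h1 h2 (lt_of_not_ge h3)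
          refine ⟨ρ', by rw [Nat.succ_mul]; exact h4, ?_⟩
          calc 2 ^ (i + 1) * (1 / 2 : ℝ) ^ b = 2 * (2 ^ i * (1 / 2 : ℝ) ^ b) := by ring
            _ ≤ _ := h5
  rcases key (b + 1) with h | ⟨ρ, -, h2⟩
  · exact h
  · exfalso
    have h3 : Pr μ ρ (fun T => ind (E T)) ≤ 1 := by
      rw [← Pr_one hμ ρ]
      exact Pr_mono hμ ρ fun T => dbl_ind_le_one _
    have h4 : (2 : ℝ) ^ (b + 1) * (1 / 2 : ℝ) ^ b = 2 := by
      rw [pow_succ, mul_right_comm, ← mul_pow]
      norm_num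
    rw [h4] at h2
    linarith

end

end Pool.Agent.TD
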