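import Pool.Agent.Lib_helper64.TD.Defs
import Pool.Agent.Lib_helper74.CKF.HYB
import Pool.Agent.Lib_helper74.CKF.HC
import Pool.Agent.Lib_helper74.CKF.MACH
import Pool.Agent.Lib_helper74.CKF.CARD
import Pool.Agent.Lib_helper74.CKF.ADDR
import Pool.Agent.Lib_helper74.CKF.ENUM
import Pool.Agent.Lib_helper74.CKF.PROG2
import Pool.Agent.Lib_helper64.TDF.AVG
import Pool.Agent.Lib_helper64.TDF.CDA
import Pool.Agent.Lib_helper64.TDF.DBL
import Pool.Agent.Lib_helper64.TDF.TRA
/-!
# Block FPR: probability that an adversary survives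
-/

set_option autoImplicit false

namespace Pool.Agent.TD

open Pool.Agent.CK

theorem fpr_two_pow (m : ℕ) : m + 1 ≤ 2 ^ m := Nat.lt_two_pow_self

theorem fpr_len (k n : ℕ) (hn : 1 ≤ n) :
    (2 ^ aa (k + 1) n + n + 2 + 1) * dd n ≤ ss k n := by
  have h0 : n / 3 + 2 ≤ aa (k + 1) n := Nat.le_add_right _ _
  have h1 : 2 ^ (n / 3 + 2) ≤ 2 ^ aa (k + 1) n := Nat.pow_le_pow_right (by norm_num) h0
  have h2 : 2 ^ (n / 3 + 2) = 4 * 2 ^ (n / 3) := by rw [pow_add]; ring
  have h3 := fpr_two_pow (n / 3)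
  have h4 : 2 ^ aa (k + 1) n + n + 2 + 1 ≤ 4 * 2 ^ aa (k + 1) n := by omega
  calc (2 ^ aa (k + 1) n + n + 2 + 1) * dd n ≤ 4 * 2 ^ aa (k + 1) n * dd n :=
        Nat.mul_le_mul h4 le_rfl
    _ = ss k n := by
        unfold dd ss
        rw [pow_add, pow_add]
        ring

theorem fpr_hits (n : ℕ) (v : X (2 * n) → Str) (A : X (2 * n) → DT Str) (O : Lang) :
    (hits n v A O : ℝ) = ∑ x, ind (((A x).map fun y => y == v x).eval O) := by
  unfold hits
  rw [Finset.card_filter]
  push_cast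
  refine Finset.sum_congr rfl fun x _ => ?_
  rw [DT.eval_map]
  unfold ind
  by_cases h : (A x).eval O = v x
  · rw [if_pos h, if_pos (by simpa using h)]
  · rw [if_neg h, if_neg (by simpa using h)]

theorem fpr_Del (k n : ℕ) (hk : k < KK n) : Del k n = 4 * Del (k + 1) n := by
  unfold Del
  have : Lam n + 2 * (KK n - k) = 2 + (Lam n + 2 * (KK n - (k + 1))) := by omega
  rw [this, pow_add]
  norm_num

/-- FPR: from `doubling`, `averaging`, with `B x = (A x).map fun y => y == v x`,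
`W = 4 ^ n / Del (k + 1) n`, `ε = 1 / NN k`, `Del k n = 4 * Del (k + 1) n`. -/
theorem failprob (k n : ℕ) (hn : 1 ≤ n) (hk : k < KK n) (O : Lang) (v : X (2 * n) → Str)
    (hv : ∀ x, (v x).length = n) (A : X (2 * n) → DT Str) (hA : ∀ x, (A x).depth ≤ dd n)
    (ν : Bool → Q k → ℝ) (hν : ∀ b, (∀ q, 0 ≤ ν b q) ∧ ∑ q, ν b q = 1) (κ : Z k → Bool)
    (hD : ∀ (x : X (2 * n)) (b : Str) (ρ : List (Z k × Q k)) (pre post : List (Q k)),
      b.length = n → ρ.length ≤ ss k n → pre.length ≤ dd n → post.length ≤ dd n →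
      ∑ q, ν true q * ind (((⟨A x, b, ρ, pre, post⟩ : Tst k).tree q).eval O) ≤
        ∑ q, ν false q * ind (((⟨A x, b, ρ, pre, post⟩ : Tst k).tree q).eval O) +
          1 / (NN k : ℝ))
    (hNN : 4 * dd n * Del (k + 1) n ≤ NN k)
    (hsim : ∀ (ρ : List (Z k × Q k)) (r : List (Q k)), ρ.length ≤ ss k n → r.length = dd n →
      Del k n * hits n v (fun x => simB [] (pos k) (rd k) (A x) ρ r) O < 4 ^ n) :
    Pr (fun z => ν (κ z)) [] (fun T => ind (decide
      (4 ^ n ≤ Del (k + 1) n * hits n v A (patch (pos k) (rd k) O T)))) ≤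
      (1 / 2 : ℝ) ^ (2 ^ aa (k + 1) n + n + 2) := by
  by_contra hcon
  rw [not_le] at hcon
  have hDpos : 0 < Del (k + 1) n := by unfold Del; positivity
  have hDposR : (0 : ℝ) < Del (k + 1) n := by exact_mod_cast hDpos
  have hNNpos : 0 < NN k := by
    refine lt_of_lt_of_le ?_ hNN
    have : 0 < dd n := by unfold dd; positivity
    positivity
  have hNNposR : (0 : ℝ) < NN k := by exact_mod_cast hNNpos
  have hμ : IsPD (fun z : Z k => ν (κ z)) := fun z => hν (κ z)
  -- the trees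
  have hBd : ∀ x, ((A x).map fun y => y == v x).depth ≤ dd n := fun x => by
    rw [DT.depth_map]; exact hA x
  have hsB : ∀ (x : X (2 * n)) (ρ : List (Z k × Q k)) (r : List (Q k)),
      sim (pos k) (rd k) ((A x).map fun y => y == v x) ρ r =
        (simB [] (pos k) (rd k) (A x) ρ r).map fun y => y == v x := by
    intro x ρ r
    rw [simB_map, ← simB_sim]
    congr 1
    have hne : v x ≠ [] := by
      intro h
      have := hv x
      rw [h] at this
      simp at this
      omega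
    symm
    simp only [beq_eq_false_iff_ne, ne_eq]
    exact fun h => hne h.symm
  obtain ⟨ρ, hρ, hρW⟩ := doubling hμ (pos k) (rd k) O (fun x => (A x).map fun y => y == v x)
    (dd n) hBd ((4 : ℝ) ^ n / Del (k + 1) n)
    (fun T => decide (4 ^ n ≤ Del (k + 1) n * hits n v A (patch (pos k) (rd k) O T)))
    (fun T hT => by
      rw [decide_eq_true_iff] at hT
      rw [← fpr_hits, div_le_iff₀ hDposR]
      have : ((4 ^ n : ℕ) : ℝ) ≤
          ((Del (k + 1) n * hits n v A (patch (pos k) (rd k) O T) : ℕ) : ℝ) := by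
        exact_mod_cast hT
      push_cast at this
      linarith)
    (2 ^ aa (k + 1) n + n + 2) hcon.le
  have hρs : ρ.length ≤ ss k n := hρ.trans (fpr_len k n hn)
  obtain ⟨r, hr, hrW⟩ := averaging ν hν κ (pos k) (rd k) O
    (fun x => (A x).map fun y => y == v x) (dd n) hBd (1 / (NN k : ℝ)) (by positivity) ρ
    (fun x pre post hpre hpost => by
      have := hD x (v x) ρ pre post (hv x) hρs hpre hpost
      simpa only [Tst.tree, hsB] using this)
    ((4 : ℝ) ^ n / Del (k + 1) n / 2) hρW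
  have h1 := hsim ρ r hρs hr
  have h2 : (hits n v (fun x => simB [] (pos k) (rd k) (A x) ρ r) O : ℝ) =
      ∑ x, ind ((sim (pos k) (rd k) ((A x).map fun y => y == v x) ρ r).eval O) := by
    rw [fpr_hits]
    refine Finset.sum_congr rfl fun x _ => ?_
    rw [hsB]
  rw [← h2] at hrW
  have hcard : (Fintype.card (X (2 * n)) : ℝ) = 4 ^ n := by
    rw [card_X, pow_mul]
    norm_num
  rw [hcard] at hrW
  have h3 : (Del k n : ℝ) * hits n v (fun x => simB [] (pos k) (rd k) (A x) ρ r) O < 4 ^ n := by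
    exact_mod_cast h1
  rw [fpr_Del k n hk] at h3
  push_cast at h3
  have h4 : (4 : ℝ) * dd n * Del (k + 1) n ≤ NN k := by exact_mod_cast hNN
  have h5 : (4 : ℝ) ^ n * (dd n * (1 / (NN k : ℝ))) ≤ 4 ^ n / Del (k + 1) n / 4 := by
    rw [mul_one_div, ← mul_div_assoc, div_div, div_le_div_iff₀ hNNposR (by positivity)]
    have h6 : (0 : ℝ) < 4 ^ n := by positivity
    nlinarith
  have h7 : (4 : ℝ) ^ n / Del (k + 1) n / 4 ≤
      hits n v (fun x => simB [] (pos k) (rd k) (A x) ρ r) O := by linarith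
  rw [div_div, div_le_iff₀ (by positivity)] at h7
  linarith

end Pool.Agent.TD
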