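import Pool.Agent.Lib_helper64.TD.Defs
import Pool.Agent.Lib_helper74.CKF.HYB
import Pool.Agent.Lib_helper74.CKF.HC
import Pool.Agent.Lib_helper74.CKF.MACH
import Pool.Agent.Lib_helper74.CKF.CARD
import Pool.Agent.Lib_helper74.CKF.ADDR
import Pool.Agent.Lib_helper64.TDF.TRB
set_option autoImplicit false

namespace Pool.Agent.TD

open Pool.Agent.CK

/-- TRC -/
theorem vv_length (S : Sec) (n : ℕ) (x : X (2 * n)) : (vv S n x).length = n :=
  ((S.f n (lf n x.1 x.2)).symm (rg n x.1 x.2)).2

theorem trc_VV (S : Sec) (w : Str) (m : ℕ) (hm : w.length = 3 * m) :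
    VV S w = (List.zipWith (fun a b => a && b)
      (vv S m ⟨w.take (2 * m), by rw [List.length_take]; omega⟩)
      (w.drop (2 * m))).any id := by
  obtain rfl : m = w.length / 3 := by omega
  unfold VV
  rw [dif_pos hm]

theorem trc_any (v : Str) (n i : ℕ) (hv : v.length = n) (hi : i < n) :
    (List.zipWith (fun a b => a && b) v (unitv n i)).any id = v.getD i false := by
  have hu : (unitv n i).length = n := by simp [unitv]
  rw [Bool.eq_iff_iff, List.any_eq_true]
  constructor
  · rintro ⟨b, hb, hb'⟩
    obtain ⟨k, hk, rfl⟩ := List.mem_iff_getElem.1 hb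
    have hk' : k < v.length := by
      have := hk
      simp only [List.length_zipWith] at this
      omega
    simp only [List.getElem_zipWith, unitv, List.getElem_map, List.getElem_range, id_eq,
      Bool.and_eq_true, decide_eq_true_eq] at hb'
    obtain ⟨h1, rfl⟩ := hb'
    rw [List.getD_eq_getElem _ _ hk']
    exact h1
  · intro h
    have hiv : i < v.length := by omega
    rw [List.getD_eq_getElem _ _ hiv] at h
    have hlen : i < (List.zipWith (fun a b => a && b) v (unitv n i)).length := by
      rw [List.length_zipWith]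
      omega
    refine ⟨_, List.getElem_mem hlen, ?_⟩
    simp only [List.getElem_zipWith, unitv, List.getElem_map, List.getElem_range, id_eq,
      Bool.and_eq_true, decide_eq_true_eq]
    exact ⟨h, trivial⟩

/-- TRC -/
theorem VV_unit (S : Sec) (n : ℕ) (x : X (2 * n)) (i : ℕ) (hi : i < n) :
    VV S (x.1 ++ unitv n i) = (vv S n x).getD i false := by
  obtain ⟨x, hx⟩ := x
  have hu : (unitv n i).length = n := by simp [unitv]
  have hw : (x ++ unitv n i).length = 3 * n := by
    rw [List.length_append, hx, hu]
    omega
  change VV S (x ++ unitv n i) = _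
  rw [trc_VV S _ n hw]
  have h1 : (x ++ unitv n i).take (2 * n) = x := by
    rw [← hx]
    exact List.take_left
  have h2 : (x ++ unitv n i).drop (2 * n) = unitv n i := by
    rw [← hx]
    exact List.drop_left
  have h3 : (⟨(x ++ unitv n i).take (2 * n), by rw [List.length_take]; omega⟩ : X (2 * n)) =
      ⟨x, hx⟩ := Subtype.ext h1
  rw [h3, h2]
  exact trc_any _ n i (vv_length S n _) hi

/-- TRC -/
theorem invTree_correct (S : Sec) (i n : ℕ) (x : X (2 * n)) (O : Lang)
    (h : ∀ k < n, PL i O (x.1 ++ unitv n k) = VV S (x.1 ++ unitv n k)) :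
    (invTree i n x.1).eval O = vv S n x := by
  unfold invTree
  rw [seqT_eval]
  have hl := vv_length S n x
  apply List.ext_getElem
  · simp [hl]
  · intro k h1 h2
    have hk : k < n := by omega
    simp only [List.getElem_map, List.getElem_range]
    rw [eval_PT, h k hk, VV_unit S n x k hk, List.getD_eq_getElem _ _ h2]


end Pool.Agent.TD
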