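import Pool.Agent.Lib_helper64.TD.Defs
import Pool.Agent.Lib_helper74.CKF.HYB
import Pool.Agent.Lib_helper74.CKF.HC
import Pool.Agent.Lib_helper74.CKF.MACH
import Pool.Agent.Lib_helper74.CKF.CARD
import Pool.Agent.Lib_helper74.CKF.ADDR
import Pool.Agent.Lib_helper74.CKF.ENUM
import Pool.Agent.Lib_helper74.CKF.PROG2
import Pool.Agent.Lib_helper64.TDF.CDA
import Pool.Agent.Lib_helper64.TDF.STB
import Pool.Agent.Lib_helper64.TDF.TRB
import Pool.Agent.Lib_helper64.TDF.TRC
set_option autoImplicit false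

namespace Pool.Agent.TD

open Pool.Agent.CK

theorem hpr_lift (n0 k : ℕ) (Fm : Fam) (O : Lang) :
    ∀ l : List (Q k → Bool),
      (∀ f ∈ l, f ∈ {f : Q k → Bool | ∃ t : Tst k, TstOK n0 k Fm t ∧
        f = fun q => (t.tree q).eval O}) →
      ∃ l' : List (Tst k), l'.length = l.length ∧ (∀ t ∈ l', TstOK n0 k Fm t) ∧
        ∀ q, l.countP (fun f => f q) = l'.countP (fun t => (t.tree q).eval O) := by
  intro l
  induction l with
  | nil => intro _; exact ⟨[], rfl, fun t ht => by simp at ht, fun q => rfl⟩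
  | cons f l ih =>
    intro h
    obtain ⟨t, ht, hf⟩ := h f (List.mem_cons_self ..)
    obtain ⟨l', h1, h2, h3⟩ := ih fun g hg => h g (List.mem_cons_of_mem _ hg)
    refine ⟨t :: l', by simp [h1], ?_, ?_⟩
    · intro t' ht'
      rcases List.mem_cons.1 ht' with rfl | h'
      · exact ht
      · exact h2 t' h'
    · intro q
      rw [List.countP_cons, List.countP_cons, h3 q, hf]

theorem hpr_ex_le (k : ℕ) : ex (iM (sj k)) ≤ sj k := by
  have h1 : ex (iM (sj k)) ≤ iM (sj k) := Nat.unpair_right_le _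
  have h2 : iM (sj k) ≤ (sj k).unpair.2 := Nat.unpair_left_le _
  have h3 : (sj k).unpair.2 ≤ sj k := Nat.unpair_right_le _
  omega

/-- HPR: from `hardcore`, with `D` the values of the tests, `N = NN k`, `s = qb k + 1` -/
theorem hardpair (n0 k : ℕ) (Fm : Fam) (S : Sec) (O : Lang) (hcor : Corr S k O)
    (hdef : ∀ A ∈ Cmp n0 k Fm (sn k),
      Del k (sn k) * hits (sn k) (vv S (sn k)) A O < 4 ^ sn k) :
    ∃ ν : Bool → Q k → ℝ, (∀ b, (∀ q, 0 ≤ ν b q) ∧ ∑ q, ν b q = 1) ∧
      (∀ b q, ν b q ≠ 0 → NL (iC (sj k)) O q.1 = b) ∧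
      ∀ t : Tst k, TstOK n0 k Fm t →
        ∑ q, ν true q * ind ((t.tree q).eval O) ≤
          ∑ q, ν false q * ind ((t.tree q).eval O) + 1 / (NN k : ℝ) := by
  classical
  have hN : 1 ≤ NN k := by
    unfold NN dd
    have h1 : 0 < 2 ^ Lam (3 * sM k) := by positivity
    have h2 : 0 < 2 ^ (Lam (3 * sM k) + 2 * KK (3 * sM k)) := by positivity
    have h3 : 0 < 4 * 2 ^ Lam (3 * sM k) * 2 ^ (Lam (3 * sM k) + 2 * KK (3 * sM k)) := by
      positivity
    exact h3
  rcases hardcore (fun q : Q k => NL (iC (sj k)) O q.1)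
    {f : Q k → Bool | ∃ t : Tst k, TstOK n0 k Fm t ∧ f = fun q => (t.tree q).eval O}
    (NN k) (qb k + 1) hN (card_Q k) with ⟨ν, hν, hc, hD⟩ | ⟨l, hl, hlD, θ, hθ, hcq⟩
  · exact ⟨ν, hν, hc, fun t ht => hD _ ⟨t, ht, rfl⟩⟩
  · exfalso
    obtain ⟨l', h1, h2, h3⟩ := hpr_lift n0 k Fm O l hlD
    have hmem : (fun x : X (2 * sn k) => DT.tr (thrT l' θ) (invTree (iM (sj k)) (sn k) x.1)) ∈
        Cmp n0 k Fm (sn k) :=
      ⟨rfl, l', by rw [h1]; exact hl, h2, θ, by rw [h1]; exact hθ, rfl⟩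
    have hall : ∀ x : X (2 * sn k),
        (DT.tr (thrT l' θ) (invTree (iM (sj k)) (sn k) x.1)).eval O = vv S (sn k) x := by
      intro x
      rw [DT.eval_tr, ← invTree_correct S (iM (sj k)) (sn k) x
        (join O (NL (iC (sj k)) O)) (fun i hi => hcor x i hi)]
      apply DT.eval_join_congr _ _ (invTree_allQ (iM (sj k)) (sn k) x.1 x.2)
      · intro w _
        rfl
      · intro w hw
        have hq := quest_le k (ex (iM (sj k))) (hpr_ex_le k)
        have hw' : w.length + 1 ≤ 3 * sn k + (3 * sn k + 2) ^ ex (iM (sj k)) := by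
          simpa using hw
        have hlen : w.length ≤ qb k := by omega
        have e := hcq ⟨w, hlen⟩
        have e2 : (thrT l' θ w).eval O =
            decide (θ ≤ l'.countP fun t => (t.tree ⟨w, hlen⟩).eval O) := by
          unfold thrT
          rw [dif_pos hlen, DT.eval_thr, List.countP_map]
          rfl
        show (thrT l' θ w).eval O = NL (iC (sj k)) O w
        rw [e2, ← h3 ⟨w, hlen⟩]
        exact e.symm
    have hh : hits (sn k) (vv S (sn k))
        (fun x : X (2 * sn k) => DT.tr (thrT l' θ) (invTree (iM (sj k)) (sn k) x.1)) O =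
          4 ^ sn k := by
      unfold hits
      rw [Finset.filter_true_of_mem (fun x _ => hall x), Finset.card_univ, card_X, pow_mul]
      norm_num
    have h4 := hdef _ hmem
    rw [hh] at h4
    have hD1 : 1 ≤ Del k (sn k) := by
      unfold Del
      exact Nat.one_le_two_pow
    have h5 : 1 * 4 ^ sn k ≤ Del k (sn k) * 4 ^ sn k := Nat.mul_le_mul_right _ hD1
    omega

end Pool.Agent.TD
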