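import Pool.Agent.Lib_helper64.TDF.NU2
import Pool.Agent.Lib_helper74.CKF.MACH

set_option autoImplicit false

namespace Pool.Agent.TD

open Pool.Agent.CK

/-- SEC -/
theorem sec_program {S : Sec} {Tab : ℕ → Str → Str} {n : ℕ} (h : SecAt S Tab n) (c : Cmd)
    (hc : Encodable.encode c ≤ n) (w : Str) (hw : w.length ≤ 2 ^ (n / (Nat.log 2 n) ^ 3))
    (t : ℕ) (ht : t ≤ 2 ^ (n / (Nat.log 2 n) ^ 3)) :
    2 ^ (n / (Nat.log 2 n) ^ 3) * (Finset.univ.filter fun x : X (2 * n) =>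
      (run (orc S Tab) c x.1 w t).2 0 = vv S n x).card < 4 ^ n := by
  have h1 := div_log_lt_Lam n
  have h2 : n / (Nat.log 2 n) ^ 3 ≤ Lam n - 1 := by omega
  have h3 : 2 ^ (n / (Nat.log 2 n) ^ 3) ≤ 2 ^ (Lam n - 1) :=
    Nat.pow_le_pow_right (by norm_num) h2
  have h4 : 2 ^ (n / (Nat.log 2 n) ^ 3) ≤ 2 ^ Lam n :=
    Nat.pow_le_pow_right (by norm_num) h1.le
  have h5 := h (fun x => (runTree t ([c], init x.1 w)).map fun cf => cf.2 0)
    ⟨le_rfl, c, hc, w, hw.trans h3, t, ht.trans h3, rfl⟩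
  have e : hits n (vv S n) (fun x => (runTree t ([c], init x.1 w)).map fun cf => cf.2 0)
      (orc S Tab) = (Finset.univ.filter fun x : X (2 * n) =>
      (run (orc S Tab) c x.1 w t).2 0 = vv S n x).card := by
    unfold hits
    congr 1
    apply Finset.filter_congr
    intro x _
    rw [DT.eval_map, mach_eval_runTree]
    rfl
  rw [e] at h5
  exact (Nat.mul_le_mul_right _ h4).trans_lt h5

end Pool.Agent.TD
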