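import Pool.Agent.Lib_helper64.TDF.Iter
import Pool.Agent.Lib_helper64.TDF.COL
import Pool.Agent.Lib_helper64.TDF.SEC
import Pool.Agent.Lib_helper40.TDB.PermD
import Pool.Agent.Lib_helper40.TDB.NotP

/-!
# The final theorem
-/

set_option autoImplicit false

namespace Pool.Agent.TD

open Pool.Agent.CK

/-- Every language is Turing reducible to itself. -/
theorem main_refl (O L : Lang) : TuringReducible O L L := by
  refine ⟨Cmd.seq (Cmd.push 0 true) (Cmd.ask 0 (Cmd.push 0 false) (Cmd.push 0 true)), 2,
    fun x => ?_⟩
  have h4 : ∃ m, (x.length + 2) ^ 2 = m + 4 := ⟨x.length ^ 2 + 4 * x.length, by ring⟩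
  obtain ⟨m, hm⟩ := h4
  have hstop : ∀ (j : ℕ) (s : ℕ → List Bool), (step (join O L))^[j] ([], s) = ([], s) := by
    intro j s
    induction j with
    | zero => rfl
    | succ j ih => rw [Function.iterate_succ_apply', ih]; rfl
  have hrun : run (join O L) (Cmd.seq (Cmd.push 0 true)
      (Cmd.ask 0 (Cmd.push 0 false) (Cmd.push 0 true))) x [] ((x.length + 2) ^ 2) =
      ([], Function.update (Function.update (init x []) 0 (true :: x)) 0 (L x :: true :: x)) := by
    rw [hm]
    unfold run
    rw [Function.iterate_add_apply]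
    have h0 : (step (join O L))^[4] ([Cmd.seq (Cmd.push 0 true)
        (Cmd.ask 0 (Cmd.push 0 false) (Cmd.push 0 true))], init x []) =
        ([], Function.update (Function.update (init x []) 0 (true :: x)) 0
          (L x :: true :: x)) := by
      cases hL : L x <;>
        simp [Function.iterate_succ_apply', step, join, init, hL]
    rw [h0, hstop]
  constructor
  · unfold Halts
    rw [hrun]
  · unfold Accepts
    rw [hrun]
    simp

/-- Trapdoor permutations and collapse of the completeness notions. -/
theorem main_TDP : ∃ (O V : Lang) (G F H : List Bool → List Bool),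
    TrapdoorPermutations O G F H ∧
    Secure O G F (fun n => 2 ^ (n / (Nat.log 2 n) ^ 3)) ∧
    InUP O V ∧ InUP O (fun x => !V x) ∧ ¬ InP O V ∧ ManyOneComplete O V ∧
    (∀ C, InNP O C → TuringReducible O V C → ManyOneComplete O C) ∧
    ∀ C, TuringComplete O C → ManyOneComplete O C := by
  obtain ⟨t0, n0, S, Tab, hlen, hgoal, hsec⟩ := goals_all base
  have hcol := collapse_of_goals inFP_patch t0 hlen hgoal
  have hNP := inNP_VV S Tab
  have hS : Secure (orc S Tab) (GG S) (FF S) (fun n => 2 ^ (n / (Nat.log 2 n) ^ 3)) := by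
    apply secure_of
    intro c
    filter_upwards [Filter.eventually_ge_atTop n0,
      Filter.eventually_ge_atTop (Encodable.encode c)] with n hn hc w hw t ht
    exact sec_program (hsec n hn) c hc w hw t ht
  exact ⟨orc S Tab, VV S, GG S, FF S, HH S, tdp S Tab, hS, inUP_VV S Tab, inUP_compl_VV S Tab,
    not_inP_VV S Tab hS, hcol _ hNP (main_refl _ _), hcol,
    fun C hC => hcol C hC.1 (hC.2 _ hNP)⟩

end Pool.Agent.TD
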