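import Pool.Agent.Lib_helper64.TD.Defs
import Pool.Agent.Lib_helper74.CKF.HYB
import Pool.Agent.Lib_helper74.CKF.HC
import Pool.Agent.Lib_helper74.CKF.MACH
import Pool.Agent.Lib_helper74.CKF.CARD
import Pool.Agent.Lib_helper74.CKF.ADDR
/-!
# Block UNI: union bound
-/

set_option autoImplicit false

namespace Pool.Agent.TD

open Pool.Agent.CK

theorem uni_ind_nonneg (b : Bool) : 0 ≤ ind b := by
  unfold ind
  split_ifs <;> norm_num

theorem uni_geom (I : ℕ) : ∑ n ∈ Finset.range I, (1 / 2 : ℝ) ^ (n + 2) < 1 := by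
  have h : ∀ I : ℕ, ∑ n ∈ Finset.range I, (1 / 2 : ℝ) ^ (n + 2) = 1 / 2 - (1 / 2) ^ (I + 1) := by
    intro I
    induction I with
    | zero => norm_num
    | succ I ih =>
      rw [Finset.sum_range_succ, ih]
      ring
  rw [h I]
  have : (0 : ℝ) < (1 / 2) ^ (I + 1) := by positivity
  linarith

section

variable {Xf Zt Qt ι : Type} [Fintype Xf] [Fintype Zt] [DecidableEq Zt] [Fintype Qt]
  [DecidableEq Qt]

/-- UNI -/
theorem union_bound {μ : Zt → Qt → ℝ} (hμ : IsPD μ) (I : ℕ) {α : ℕ → Type}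
    (Fm : ∀ n, Set (α n)) (bad : ∀ n, α n → (Zt → Qt) → Bool) (a : ℕ → ℕ)
    (hcard : ∀ n < I, CardBd (Fm n) (a n))
    (hbad : ∀ n < I, ∀ A ∈ Fm n, Pr μ [] (fun T => ind (bad n A T)) ≤ (1 / 2 : ℝ) ^ (a n + n + 2)) :
    ∃ T, (∀ z, μ z (T z) ≠ 0) ∧ ∀ n < I, ∀ A ∈ Fm n, bad n A T = false := by
  classical
  -- finite sets
  let s : ∀ n, Finset (α n) := fun n => if h : (Fm n).Finite then h.toFinset else ∅
  have hs : ∀ n < I, ∀ A, A ∈ s n ↔ A ∈ Fm n := by
    intro n hn A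
    have hf := (hcard n hn).1
    simp only [s, dif_pos hf, Set.Finite.mem_toFinset]
  have hsc : ∀ n < I, (s n).card ≤ 2 ^ a n := by
    intro n hn
    have hf := (hcard n hn).1
    have h := (hcard n hn).2
    rw [Set.ncard_eq_toFinset_card (Fm n) hf] at h
    simpa only [s, dif_pos hf] using h
  -- expectation
  have h1 : ∀ n < I, ∑ A ∈ s n, Pr μ [] (fun T => ind (bad n A T)) ≤ (1 / 2 : ℝ) ^ (n + 2) := by
    intro n hn
    calc ∑ A ∈ s n, Pr μ [] (fun T => ind (bad n A T))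
        ≤ ∑ A ∈ s n, (1 / 2 : ℝ) ^ (a n + n + 2) :=
          Finset.sum_le_sum fun A hA => hbad n hn A ((hs n hn A).1 hA)
      _ = (s n).card * (1 / 2 : ℝ) ^ (a n + n + 2) := by
          rw [Finset.sum_const, nsmul_eq_mul]
      _ ≤ (2 : ℝ) ^ a n * (1 / 2 : ℝ) ^ (a n + n + 2) := by
          apply mul_le_mul_of_nonneg_right _ (by positivity)
          exact_mod_cast hsc n hn
      _ = (1 / 2 : ℝ) ^ (n + 2) := by
          rw [show a n + n + 2 = a n + (n + 2) by ring, pow_add, ← mul_assoc, ← mul_pow]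
          norm_num
  have h2 : ∑ n ∈ Finset.range I, ∑ A ∈ s n, Pr μ [] (fun T => ind (bad n A T)) < 1 :=
    lt_of_le_of_lt (Finset.sum_le_sum fun n hn => h1 n (Finset.mem_range.1 hn)) (uni_geom I)
  have h3 : 0 < Pr μ [] (fun T => 1 + (-1) * ∑ n ∈ Finset.range I, ∑ A ∈ s n, ind (bad n A T)) := by
    have e1 : Pr μ [] (fun T => ∑ n ∈ Finset.range I, ∑ A ∈ s n, ind (bad n A T)) =
        ∑ n ∈ Finset.range I, ∑ A ∈ s n, Pr μ [] (fun T => ind (bad n A T)) := by
      rw [pm_sum]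
      exact Finset.sum_congr rfl fun n _ => pm_sum _ _ _ _
    rw [Pr_add, Pr_mul, Pr_one hμ, e1]
    linarith
  obtain ⟨T, hT1, hT2⟩ := Pr_pos hμ [] _ h3
  refine ⟨T, fun z => hT1 z rfl, ?_⟩
  intro n hn A hA
  by_contra hbadT
  have hbt : bad n A T = true := by
    cases h : bad n A T
    · exact absurd h hbadT
    · rfl
  have h4 : ind (bad n A T) ≤ ∑ A ∈ s n, ind (bad n A T) :=
    Finset.single_le_sum (f := fun A => ind (bad n A T)) (fun A _ => uni_ind_nonneg _)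
      ((hs n hn A).2 hA)
  have h5 : ∑ A ∈ s n, ind (bad n A T) ≤
      ∑ n ∈ Finset.range I, ∑ A ∈ s n, ind (bad n A T) :=
    Finset.single_le_sum (f := fun n => ∑ A ∈ s n, ind (bad n A T))
      (fun n _ => Finset.sum_nonneg fun A _ => uni_ind_nonneg _) (Finset.mem_range.2 hn)
  have h6 : ind (bad n A T) = 1 := by
    rw [hbt]
    simp [ind]
  linarith

end

end Pool.Agent.TD
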