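import Pool.Agent.Lib_helper64.TDF.STA
import Pool.Agent.Lib_helper64.TDF.CDA
import Pool.Agent.Lib_helper64.TDF.TRA
import Pool.Agent.Lib_helper64.TDF.TRC
import Pool.Agent.Lib_helper64.TDF.UNI
import Pool.Agent.Lib_helper64.TDF.NU2
import Pool.Agent.Lib_helper64.TDF.GCG
import Pool.Agent.Lib_helper64.TDF.HPR
import Pool.Agent.Lib_helper64.TDF.FPR

/-!
# One stage of the construction
-/

set_option autoImplicit false

namespace Pool.Agent.TD

open Pool.Agent.CK

theorem aa_step {k n : ℕ} (hk : k < KK n) : aa k n = aa (k + 1) n + (2 * Lam n + 8) := by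
  unfold aa
  have h : KK n - k = (KK n - (k + 1)) + 1 := by omega
  rw [h]; ring

theorem aa_irrel {k n : ℕ} (hk : KK n ≤ k) : aa k n = aa (k + 1) n := by
  unfold aa
  have h : KK n - k = 0 := by omega
  have h' : KK n - (k + 1) = 0 := by omega
  rw [h, h']

theorem Del_step {k n : ℕ} (hk : k < KK n) : Del k n = 4 * Del (k + 1) n := by
  unfold Del
  have h : Lam n + 2 * (KK n - k) = (Lam n + 2 * (KK n - (k + 1))) + 2 := by omega
  rw [h, pow_add]; ring

theorem Del_mono (k n : ℕ) : Del (k + 1) n ≤ Del k n := by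
  unfold Del
  exact Nat.pow_le_pow_right (by norm_num) (by omega)

theorem aa_anti (k n : ℕ) : aa (k + 1) n ≤ aa k n := by
  unfold aa
  exact Nat.add_le_add_left (Nat.mul_le_mul_right _ (by omega)) _

theorem Del_pos (k n : ℕ) : 1 ≤ Del k n := Nat.one_le_two_pow

/-- the table entries have the positions that are too long for the level `n` -/
theorem hits_irrel {k n : ℕ} (h2 : 2 * sj k ≤ su k) (hk : KK n ≤ k) (O : Lang) (T : Z k → Q k)
    (v : X (2 * n) → Str) (A : X (2 * n) → DT Str)
    (hA : ∀ x, (A x).AllQ fun w => w.length ≤ dd n) :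
    hits n v A (patch (pos k) (rd k) O T) = hits n v A O := by
  have hlt : dd n < sD k := by
    by_contra hcon
    have := (rel_iff k n).2 (not_lt.1 hcon)
    omega
  have h : ∀ x, (A x).eval (patch (pos k) (rd k) O T) = (A x).eval O := by
    intro x
    apply DT.eval_congr _ _ (hA x)
    intro w hw
    cases hp : pos k w with
    | none => simp only [patch, hp]
    | some p =>
      have := pos_len h2 hp
      omega
  unfold hits
  simp only [h]

/-- the number of inputs on which the simulation succeeds -/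
theorem hits_congr {n : ℕ} (v : X (2 * n) → Str) {A A' : X (2 * n) → DT Str} {O O' : Lang}
    (h : ∀ x, (A x).eval O = (A' x).eval O') : hits n v A O = hits n v A' O' := by
  unfold hits
  simp only [h]

/-- the complete list of entries -/
theorem step_lookup {Zt Qt : Type} [DecidableEq Zt] (T : Zt → Qt) (l : List Zt) (z : Zt)
    (h : z ∈ l) : (l.map fun z => (z, T z)).lookup z = some (T z) := by
  induction l with
  | nil => simp at h
  | cons a l ih =>
    rw [List.map_cons, List.lookup_cons]
    by_cases e : z = a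
    · subst e; simp
    · have e' : (z == a) = false := by simpa using e
      rw [e']
      exact ih (by simpa [e] using h)

/-- If the whole table fits into the advice, every table is fine. -/
theorem def_small {k n n0 : ℕ} (h5 : 5 ≤ sj k) (hn : 3 * sM k ≤ n) (O : Lang) (T : Z k → Q k)
    (Fm : Fam) (hF : Bdd n0 (k + 1) Fm) (h0 : n0 ≤ n) (v : X (2 * n) → Str)
    (hdef : ∀ A' ∈ Sim k n (Fm n), Del k n * hits n v A' O < 4 ^ n)
    (A : X (2 * n) → DT Str) (hA : A ∈ Fm n) :
    Del (k + 1) n * hits n v A (patch (pos k) (rd k) O T) < 4 ^ n := by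
  classical
  let ρ : List (Z k × Q k) := (Finset.univ : Finset (Z k)).toList.map fun z => (z, T z)
  have hρ : ρ.length ≤ ss k n := by
    have h1 : ρ.length = Fintype.card (Z k) := by
      simp [ρ]
    rw [h1]
    refine (card_Z k).trans ?_
    unfold ss
    apply Nat.pow_le_pow_right (by norm_num)
    have : sM k ≤ n / 3 := by omega
    unfold aa
    omega
  have hlook := fun z => step_lookup T (Finset.univ : Finset (Z k)).toList z (by simp)
  let q0 : Q k := ⟨[], Nat.zero_le _⟩
  have hmem : (fun x => simB [] (pos k) (rd k) (A x) ρ (List.replicate (dd n) q0)) ∈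
      Sim k n (Fm n) := ⟨A, hA, ρ, hρ, List.replicate (dd n) q0, List.length_replicate, rfl⟩
  have h1 := hdef _ hmem
  have h2 : hits n v (fun x => simB [] (pos k) (rd k) (A x) ρ (List.replicate (dd n) q0)) O =
      hits n v A (patch (pos k) (rd k) O T) :=
    hits_congr v fun x => simB_full [] (pos k) (rd k) O T (A x) ρ _ hlook
  rw [h2] at h1
  exact (Nat.mul_le_mul_right _ (Del_mono k n)).trans_lt h1

/-- The empty table can be simulated. -/
theorem def_const {k n n0 : ℕ} (O : Lang) (q0 : Q k)
    (Fm : Fam) (hF : Bdd n0 (k + 1) Fm) (h0 : n0 ≤ n) (v : X (2 * n) → Str)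
    (hdef : ∀ A' ∈ Sim k n (Fm n), Del k n * hits n v A' O < 4 ^ n)
    (A : X (2 * n) → DT Str) (hA : A ∈ Fm n) :
    Del (k + 1) n * hits n v A (patch (pos k) (rd k) O fun _ => q0) < 4 ^ n := by
  have hmem : (fun x => simB [] (pos k) (rd k) (A x) [] (List.replicate (dd n) q0)) ∈
      Sim k n (Fm n) := ⟨A, hA, [], Nat.zero_le _, List.replicate (dd n) q0,
        List.length_replicate, rfl⟩
  have h1 := hdef _ hmem
  have h2 : hits n v (fun x => simB [] (pos k) (rd k) (A x) [] (List.replicate (dd n) q0)) O =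
      hits n v A (patch (pos k) (rd k) O fun _ => q0) :=
    hits_congr v fun x => simB_const [] (pos k) (rd k) O q0 (A x) [] (dd n)
      (by intro z q hz; simp at hz) (((hF n h0).2.2 A hA x).1)
  rw [h2] at h1
  exact (Nat.mul_le_mul_right _ (Del_mono k n)).trans_lt h1

theorem mem_next_sim {t0 : ℕ → ℕ} {n0 k n : ℕ} {Fm : Fam} (hact : Act t0 k) (hk : k < KK n)
    {A : X (2 * n) → DT Str} (hA : A ∈ Sim k n (Fm n)) : A ∈ Next t0 n0 k Fm n := by
  unfold Next
  rw [if_pos hact, if_pos hk]
  exact Or.inl hA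

theorem mem_next_irrel {t0 : ℕ → ℕ} {n0 k n : ℕ} {Fm : Fam} (hact : Act t0 k) (hk : KK n ≤ k)
    {A : X (2 * n) → DT Str} (hA : A ∈ Fm n) : A ∈ Next t0 n0 k Fm n := by
  unfold Next
  rw [if_pos hact, if_neg (by omega)]
  exact Or.inl hA

theorem mem_next_cmp {t0 : ℕ → ℕ} {n0 k n : ℕ} {Fm : Fam} (hact : Act t0 k)
    {A : X (2 * n) → DT Str} (hA : A ∈ Cmp n0 k Fm n) : A ∈ Next t0 n0 k Fm n := by
  unfold Next
  rw [if_pos hact]
  exact Or.inr hA

/-- One active stage. -/
theorem step_stage {t0 : ℕ → ℕ} {n0 k : ℕ} {Fm : Fam} {S : Sec} {Tab : ℕ → Str → Str}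
    (h16 : 16 ≤ n0) (hact : Act t0 k) (hK : NumK n0 k) (hF : Bdd n0 (k + 1) Fm)
    (hdef : Def n0 k S (orc S Tab) (Next t0 n0 k Fm)) :
    ∃ T : Z k → Q k, Def n0 (k + 1) S (orc S (upd Tab k T)) Fm ∧
      Goal S k (orc S (upd Tab k T)) (upd Tab k T) := by
  classical
  have h5 : 5 ≤ sj k := hact.1
  have h2 : 2 * sj k ≤ su k := hact.2.1
  set O := orc S Tab with hO
  -- a table for which the levels `n < 3 * sM k` are fine
  have main : ∀ T : Z k → Q k, (∀ n, n0 ≤ n → n < 3 * sM k → k < KK n → ∀ A ∈ Fm n,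
      Del (k + 1) n * hits n (vv S n) A (patch (pos k) (rd k) O T) < 4 ^ n) →
      Def n0 (k + 1) S (orc S (upd Tab k T)) Fm := by
    intro T hT n hn A hA
    rw [orc_upd S Tab k T h5]
    by_cases hk : k < KK n
    · by_cases hM : n < 3 * sM k
      · exact hT n hn hM hk A hA
      · exact def_small h5 (not_lt.1 hM) O T Fm hF hn (vv S n)
          (fun A' hA' => hdef n hn A' (mem_next_sim hact hk hA')) A hA
    · rw [hits_irrel h2 (not_lt.1 hk) O T (vv S n) A fun x => ((hF n hn).2.2 A hA x).2]
      have h1 := hdef n hn A (mem_next_irrel hact (not_lt.1 hk) hA)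
      exact (Nat.mul_le_mul_right _ (Del_mono k n)).trans_lt h1
  have hlow : ∀ T : Z k → Q k, ∀ w : Str, w.length < sD k → O w = orc S (upd Tab k T) w :=
    fun T w hw => (orc_low S Tab k T h5 h2 w hw).symm
  by_cases hcor : Corr S k O
  · -- the reduction is correct: hard core
    obtain ⟨ν, hν, hc, hD⟩ := hardpair n0 k Fm S O hcor
      (fun A hA => hdef (sn k) hK.hn0 A (mem_next_cmp hact hA))
    set κ : Z k → Bool := fun z => NL (iN (sj k)) O z.1 with hκ
    have hμ : IsPD fun z => ν (κ z) := fun z => hν (κ z)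
    obtain ⟨T, hT1, hT2⟩ := union_bound hμ (3 * sM k)
      (fun n => if n0 ≤ n ∧ k < KK n then Fm n else ∅)
      (fun n A T => decide (4 ^ n ≤ Del (k + 1) n * hits n (vv S n) A (patch (pos k) (rd k) O T)))
      (fun n => 2 ^ aa (k + 1) n)
      (by
        intro n hn
        by_cases h : n0 ≤ n ∧ k < KK n
        · simp only [h, and_self, if_true]
          exact ⟨(hF n h.1).1, (hF n h.1).2.1⟩
        · rw [if_neg h]
          exact ⟨Set.finite_empty, by simp⟩)
      (by
        intro n hn A hA
        by_cases h : n0 ≤ n ∧ k < KK n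
        · rw [if_pos h] at hA
          exact failprob k n (by omega) h.2 O (vv S n) (vv_length S n) A
            (fun x => ((hF n h.1).2.2 A hA x).1) ν hν κ
            (fun x b ρ pre post hb hρ hpre hpost => hD ⟨A x, b, ρ, pre, post⟩
              ⟨n, h.1, hn, h.2, ⟨A, hA, x, rfl⟩, hb, hρ, hpre, hpost⟩)
            (NN_ge (by omega) hn)
            (fun ρ r hρ hr => hdef n h.1 _ (mem_next_sim hact h.2 ⟨A, hA, ρ, hρ, r, hr, rfl⟩))
        · rw [if_neg h] at hA
          exact absurd hA (Set.notMem_empty _))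
    refine ⟨T, main T ?_, ?_⟩
    · intro n hn hM hk A hA
      have h := hT2 n hM A (by rw [if_pos ⟨hn, hk⟩]; exact hA)
      simpa using h
    · refine goal_congr h5 h2 (hlow T) (Tab := upd Tab k T) (fun z _ => rfl) ⟨?_, ?_⟩
      · intro z hz
        rw [upd_self Tab k T ⟨z, hz⟩]
        exact (T ⟨z, hz⟩).2
      · intro _
        refine ⟨?_, ?_⟩
        · intro z hz
          rw [upd_self Tab k T ⟨z, hz⟩]
          exact hc _ _ (hT1 ⟨z, hz⟩)
        · have hex : ∀ b, ∃ q : Q k, ν b q ≠ 0 := by
            intro b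
            by_contra hcon
            push Not at hcon
            have := (hν b).2
            simp [hcon] at this
          obtain ⟨q0, hq0⟩ := hex false
          obtain ⟨q1, hq1⟩ := hex true
          exact ⟨q0.1, q1.1, q0.2, q1.2, hc _ _ hq0, hc _ _ hq1⟩
  · -- the reduction is not correct: empty table
    let q0 : Q k := ⟨[], Nat.zero_le _⟩
    refine ⟨fun _ => q0, main _ ?_, ?_, ?_⟩
    · intro n hn hM hk A hA
      exact def_const O q0 Fm hF hn (vv S n)
        (fun A' hA' => hdef n hn A' (mem_next_sim hact hk hA')) A hA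
    · intro z hz
      rw [upd_self Tab k (fun _ => q0) ⟨z, hz⟩]
      exact q0.2
    · intro h
      exact absurd ((corr_congr h5 h2 (hlow fun _ => q0)).2 h) hcor

end Pool.Agent.TD
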